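import Pool.Agent.PlanarCentres.Bez

/-!
# Nondegenerate centres have positive Jacobian and zero trace
-/

namespace Pool.Agent.PlanarCentres

open MvPolynomial Finset Topology

/-- `γ` is a solution, defined for all times, of the system `x' = P(x, y)`, `y' = Q(x, y)`. -/
def IsSolution (P Q : MvPolynomial (Fin 2) ℝ) (γ : ℝ → Fin 2 → ℝ) : Prop :=
  ∀ t : ℝ, HasDerivAt γ ![eval (γ t) P, eval (γ t) Q] t

/-- `γ` is a nonconstant periodic solution of `x' = P(x, y)`, `y' = Q(x, y)`. -/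
def IsPeriodicOrbit (P Q : MvPolynomial (Fin 2) ℝ) (γ : ℝ → Fin 2 → ℝ) : Prop :=
  IsSolution P Q γ ∧ (∃ T : ℝ, 0 < T ∧ ∀ t, γ (t + T) = γ t) ∧ ∃ t, γ t ≠ γ 0

/-- `p` is a centre of `x' = P(x, y)`, `y' = Q(x, y)`: an equilibrium such that every
neighbourhood `W` of `p` contains a neighbourhood `U` of `p` all of whose points other than `p`
lie on a nonconstant periodic solution that stays in `U` and avoids `p`. -/
def IsCentre (P Q : MvPolynomial (Fin 2) ℝ) (p : Fin 2 → ℝ) : Prop :=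
  eval p P = 0 ∧ eval p Q = 0 ∧
    ∀ W ∈ 𝓝 p, ∃ U ∈ 𝓝 p, U ⊆ W ∧ ∀ q ∈ U, q ≠ p →
      ∃ γ : ℝ → Fin 2 → ℝ, IsPeriodicOrbit P Q γ ∧ γ 0 = q ∧ ∀ t, γ t ∈ U ∧ γ t ≠ p

/-- a quadratic form whose derivative along the linear system is positive definite -/
theorem exists_lyap (a b c d : ℝ) (hδ : a * d - b * c ≠ 0)
    (h : ¬ (a + d = 0 ∧ 0 < a * d - b * c)) :
    ∃ s1 s2 s3 : ℝ, 0 < s1 * a + s2 * c ∧
      (s1 * b + s2 * (a + d) + s3 * c) ^ 2 < 4 * (s1 * a + s2 * c) * (s2 * b + s3 * d) := by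
  by_cases hτ : a + d = 0
  · have hneg : a * d - b * c < 0 := by
      rcases lt_or_gt_of_ne hδ with h1 | h1
      · exact h1
      · exact absurd ⟨hτ, h1⟩ h
    refine ⟨2 * a, b + c, 2 * d, ?_, ?_⟩
    · have hd : d = -a := by linarith
      subst hd
      nlinarith [sq_nonneg a, sq_nonneg c]
    · have hd : d = -a := by linarith
      subst hd
      nlinarith [sq_nonneg a, sq_nonneg c, sq_nonneg b, sq_nonneg (b - c), sq_nonneg (b + c),
        mul_pos (neg_pos.mpr hneg) (neg_pos.mpr hneg), sq_nonneg (a * (b - c)),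
        mul_nonneg (neg_pos.mpr hneg).le (sq_nonneg (b - c)),
        mul_nonneg (neg_pos.mpr hneg).le (sq_nonneg a)]
  · set τ := a + d with hτd
    set δ := a * d - b * c with hδd
    refine ⟨(δ + d ^ 2 + c ^ 2) / (2 * τ * δ), -(b * d + a * c) / (2 * τ * δ),
      (δ + a ^ 2 + b ^ 2) / (2 * τ * δ), ?_, ?_⟩
    · have : (δ + d ^ 2 + c ^ 2) / (2 * τ * δ) * a + -(b * d + a * c) / (2 * τ * δ) * c = 1 / 2 := by
        field_simp
        rw [hδd, hτd]; ring
      rw [this]; norm_num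
    · have e1 : (δ + d ^ 2 + c ^ 2) / (2 * τ * δ) * a + -(b * d + a * c) / (2 * τ * δ) * c
          = 1 / 2 := by
        field_simp
        rw [hδd, hτd]; ring
      have e2 : -(b * d + a * c) / (2 * τ * δ) * b + (δ + a ^ 2 + b ^ 2) / (2 * τ * δ) * d
          = 1 / 2 := by
        field_simp
        rw [hδd, hτd]; ring
      have e3 : (δ + d ^ 2 + c ^ 2) / (2 * τ * δ) * b + -(b * d + a * c) / (2 * τ * δ) * τ +
          (δ + a ^ 2 + b ^ 2) / (2 * τ * δ) * c = 0 := by
        field_simp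
        rw [hδd, hτd]; ring
      rw [e1, e2, e3]; norm_num

/-- a positive definite binary form -/
theorem form_pos {a b c x y : ℝ} (ha : 0 < a) (hd : b ^ 2 < 4 * a * c) (h : x ≠ 0 ∨ y ≠ 0) :
    0 < a * x ^ 2 + b * (x * y) + c * y ^ 2 := by
  have key : 4 * a * (a * x ^ 2 + b * (x * y) + c * y ^ 2) =
      (2 * a * x + b * y) ^ 2 + (4 * a * c - b ^ 2) * y ^ 2 := by ring
  have hpos : 0 < (2 * a * x + b * y) ^ 2 + (4 * a * c - b ^ 2) * y ^ 2 := by
    by_cases hy : y = 0
    · subst hy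
      have hx : x ≠ 0 := by
        rcases h with h | h
        · exact h
        · exact absurd rfl h
      have : 0 < (2 * a * x) ^ 2 := by positivity
      simpa using this
    · have h1 : 0 < (4 * a * c - b ^ 2) * y ^ 2 := by
        have : 0 < 4 * a * c - b ^ 2 := by linarith
        positivity
      have h2 := sq_nonneg (2 * a * x + b * y)
      linarith
  rw [← key] at hpos
  exact (mul_pos_iff_of_pos_left (by linarith : (0:ℝ) < 4 * a)).mp hpos

/-- Near an equilibrium with nonzero determinant which is not of centre type there are no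
nonconstant periodic solutions. -/
theorem no_small_periodic {P Q : MvPolynomial (Fin 2) ℝ} {p : Fin 2 → ℝ}
    (hP : eval p P = 0) (hQ : eval p Q = 0) (hj : jac P Q p ≠ 0)
    (h : ¬ (eval p (pderiv 0 P) + eval p (pderiv 1 Q) = 0 ∧ 0 < jac P Q p)) :
    ∃ W ∈ 𝓝 p, ∀ γ : ℝ → Fin 2 → ℝ, IsPeriodicOrbit P Q γ → ¬ ∀ t, γ t ∈ W := by
  obtain ⟨s1, s2, s3, h1, h2⟩ := exists_lyap (eval p (pderiv 0 P)) (eval p (pderiv 1 P))
    (eval p (pderiv 0 Q)) (eval p (pderiv 1 Q)) hj h
  rw [← dA_self, ← dA_self, ← dB_self, ← dB_self] at h2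
  rw [← dA_self, ← dA_self] at h1
  have c1 := dA_cont P p
  have c2 := dB_cont P p
  have c3 := dA_cont Q p
  have c4 := dB_cont Q p
  have o1 : ∀ᶠ x in 𝓝 p, 0 < s1 * dA P x p + s2 * dA Q x p := by
    have : Continuous fun x => s1 * dA P x p + s2 * dA Q x p := by fun_prop
    exact this.continuousAt.eventually (lt_mem_nhds h1)
  have o2 : ∀ᶠ x in 𝓝 p, 0 < 4 * (s1 * dA P x p + s2 * dA Q x p) *
      (s2 * dB P x p + s3 * dB Q x p) -
      (s1 * dB P x p + s2 * (dA P x p + dB Q x p) + s3 * dA Q x p) ^ 2 := by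
    have : Continuous fun x => 4 * (s1 * dA P x p + s2 * dA Q x p) *
      (s2 * dB P x p + s3 * dB Q x p) -
      (s1 * dB P x p + s2 * (dA P x p + dB Q x p) + s3 * dA Q x p) ^ 2 := by fun_prop
    exact this.continuousAt.eventually (lt_mem_nhds (by linarith))
  refine ⟨_, o1.and o2, ?_⟩
  rintro γ ⟨hsol, ⟨T, hT, hper⟩, t1, ht1⟩ hin
  -- the Lyapunov function along the solution
  set V : ℝ → ℝ := fun t => s1 * (γ t 0 - p 0) ^ 2 + 2 * s2 * ((γ t 0 - p 0) * (γ t 1 - p 1)) +
    s3 * (γ t 1 - p 1) ^ 2 with hV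
  have hd0 : ∀ t, HasDerivAt (fun t => γ t 0) (eval (γ t) P) t := by
    intro t
    have := hasDerivAt_pi.mp (hsol t) 0
    simpa using this
  have hd1 : ∀ t, HasDerivAt (fun t => γ t 1) (eval (γ t) Q) t := by
    intro t
    have := hasDerivAt_pi.mp (hsol t) 1
    simpa using this
  set G : ℝ → ℝ := fun t => 2 * ((s1 * dA P (γ t) p + s2 * dA Q (γ t) p) * (γ t 0 - p 0) ^ 2 +
    (s1 * dB P (γ t) p + s2 * (dA P (γ t) p + dB Q (γ t) p) + s3 * dA Q (γ t) p) *
      ((γ t 0 - p 0) * (γ t 1 - p 1)) +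
    (s2 * dB P (γ t) p + s3 * dB Q (γ t) p) * (γ t 1 - p 1) ^ 2) with hG
  have hVd : ∀ t, HasDerivAt V (G t) t := by
    intro t
    have e1 := dAB P (γ t) p
    have e2 := dAB Q (γ t) p
    rw [hP, sub_zero] at e1
    rw [hQ, sub_zero] at e2
    have a0 := (hd0 t).sub_const (p 0)
    have a1 := (hd1 t).sub_const (p 1)
    have := (((a0.pow 2).const_mul s1).add ((a0.mul a1).const_mul (2 * s2))).add
      ((a1.pow 2).const_mul s3)
    refine this.congr_deriv ?_
    rw [hG, e1, e2]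
    simp only
    ring
  have hGnn : ∀ t, γ t ≠ p → 0 < G t := by
    intro t ht
    have hne : γ t 0 - p 0 ≠ 0 ∨ γ t 1 - p 1 ≠ 0 := by
      by_contra hcon
      push Not at hcon
      apply ht
      funext i
      fin_cases i
      · exact sub_eq_zero.mp hcon.1
      · exact sub_eq_zero.mp hcon.2
    have hW := hin t
    have := form_pos (x := γ t 0 - p 0) (y := γ t 1 - p 1) hW.1
      (b := s1 * dB P (γ t) p + s2 * (dA P (γ t) p + dB Q (γ t) p) + s3 * dA Q (γ t) p)
      (c := s2 * dB P (γ t) p + s3 * dB Q (γ t) p) (by have := hW.2; linarith) hne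
    simp only [hG]
    linarith
  have hGnn' : ∀ t, 0 ≤ G t := by
    intro t
    by_cases ht : γ t = p
    · simp only [hG, ht]; simp
    · exact (hGnn t ht).le
  have hmono : Monotone V :=
    monotone_of_deriv_nonneg (fun t => (hVd t).differentiableAt)
      (fun t => by rw [(hVd t).deriv]; exact hGnn' t)
  have hVper : ∀ t, V (t + T) = V t := by
    intro t; simp only [hV, hper]
  have hVn : ∀ (n : ℕ) t, V (t + n * T) = V t := by
    intro n
    induction n with
    | zero => intro t; simp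
    | succ n ih =>
      intro t
      have : t + ((n + 1 : ℕ) : ℝ) * T = (t + n * T) + T := by push_cast; ring
      rw [this, hVper, ih]
  have hconst : ∀ s t, V s ≤ V t := by
    intro s t
    obtain ⟨n, hn⟩ := exists_nat_gt ((s - t) / T)
    have : s ≤ t + n * T := by
      rw [div_lt_iff₀ hT] at hn
      linarith
    calc V s ≤ V (t + n * T) := hmono this
      _ = V t := hVn n t
  have hV0 : V = fun _ => V 0 := by
    funext t; exact le_antisymm (hconst t 0) (hconst 0 t)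
  have hG0 : ∀ t, G t = 0 := by
    intro t
    have h5 := hVd t
    rw [hV0] at h5
    exact h5.unique (hasDerivAt_const t (V 0))
  have hall : ∀ t, γ t = p := by
    intro t
    by_contra ht
    exact (hGnn t ht).ne' (hG0 t)
  exact ht1 (by rw [hall t1, hall 0])

/-- A centre whose linearisation has nonzero determinant has zero divergence and positive
Jacobian determinant. -/
theorem centre_jac {P Q : MvPolynomial (Fin 2) ℝ} {p : Fin 2 → ℝ} (hc : IsCentre P Q p)
    (hj : jac P Q p ≠ 0) :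
    eval p (pderiv 0 P) + eval p (pderiv 1 Q) = 0 ∧ 0 < jac P Q p := by
  by_contra h
  obtain ⟨W, hW, hno⟩ := no_small_periodic hc.1 hc.2.1 hj h
  obtain ⟨U, hU, hUW, hq⟩ := hc.2.2 W hW
  have : ∃ q ∈ U, q ≠ p := by
    have hne : (𝓝[≠] p).NeBot := inferInstance
    obtain ⟨q, hq1, hq2⟩ := (hne.nonempty_of_mem (inter_mem_nhdsWithin {p}ᶜ hU))
    exact ⟨q, hq2, hq1⟩
  obtain ⟨q, hqU, hqp⟩ := this
  obtain ⟨γ, hγ, -, hγU⟩ := hq q hqU hqp
  exact hno γ hγ fun t => hUW (hγU t).1

end Pool.Agent.PlanarCentres
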