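import Pool.Agent.PlanarCentres.Bez

/-!
# Antisaddles on an algebraic curve

If the common zeros with positive Jacobian in a finite set `S` lie on a curve `D = 0` of degree at
most `m ≤ n` then `|S| ≤ n (n + 1) / 2 - (n - m) (n - m + 1) / 2`.
-/

namespace Pool.Agent.PlanarCentres

open MvPolynomial Finset

/-- pairs of exponents of degree at most `k` -/
def pairs (k : ℕ) : Finset (ℕ × ℕ) := (range (k + 1)).biUnion fun d => antidiagonal d

theorem mem_pairs {k : ℕ} {m : ℕ × ℕ} : m ∈ pairs k ↔ m.1 + m.2 ≤ k := by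
  simp only [pairs, mem_biUnion, mem_range, HasAntidiagonal.mem_antidiagonal]
  constructor
  · rintro ⟨d, h1, h2⟩
    omega
  · intro h
    exact ⟨_, by omega, rfl⟩

theorem card_pairs (k : ℕ) : (pairs k).card = (k + 1) * (k + 2) / 2 := by
  unfold pairs
  rw [card_biUnion]
  · simp only [Finset.Nat.card_antidiagonal]
    induction k with
    | zero => decide
    | succ k ih =>
      rw [Finset.sum_range_succ, ih]
      have : (k + 1 + 1) * (k + 1 + 2) = (k + 1) * (k + 2) + 2 * (k + 2) := by ring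
      rw [this]
      omega
  · intro a _ b _ hab
    rw [Function.onFun, Finset.disjoint_left]
    intro x hx hx'
    rw [HasAntidiagonal.mem_antidiagonal] at hx hx'
    exact hab (hx ▸ hx')

theorem sum_two (s : Fin 2 →₀ ℕ) : (s.sum fun _ e => e) = s 0 + s 1 := by
  rw [Finsupp.sum_fintype _ _ (fun _ => rfl), Fin.sum_univ_two]

/-- exponents as pairs -/
noncomputable def expEquiv (k : ℕ) :
    {s : Fin 2 →₀ ℕ | (s.sum fun _ e => e) ≤ k} ≃ (pairs k) where
  toFun s := ⟨(s.1 0, s.1 1), mem_pairs.mpr (by have := s.2; rw [Set.mem_ofPred_eq, sum_two] at this; exact this)⟩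
  invFun m := ⟨Finsupp.equivFunOnFinite.symm ![m.1.1, m.1.2], by
    rw [Set.mem_ofPred_eq, sum_two]
    have := mem_pairs.mp m.2
    simpa using this⟩
  left_inv s := by
    apply Subtype.ext
    ext i
    fin_cases i <;> simp
  right_inv m := by
    apply Subtype.ext
    simp

theorem finrank_deg (k : ℕ) :
    Module.finrank ℝ (restrictTotalDegree (Fin 2) ℝ k) = (k + 1) * (k + 2) / 2 := by
  unfold restrictTotalDegree
  rw [Module.finrank_eq_nat_card_basis
    (basisRestrictSupport ℝ {s : Fin 2 →₀ ℕ | (s.sum fun _ e => e) ≤ k}),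
    Nat.card_congr (expEquiv k), Nat.card_eq_fintype_card, Fintype.card_coe, card_pairs]

/-- evaluation on a finite set -/
noncomputable def evL (k : ℕ) (S : Finset (Fin 2 → ℝ)) :
    restrictTotalDegree (Fin 2) ℝ k →ₗ[ℝ] (S → ℝ) where
  toFun f p := eval p.1 f.1
  map_add' f g := by funext p; simp
  map_smul' c f := by funext p; simp

theorem evL_surj {P Q : MvPolynomial (Fin 2) ℝ} {n : ℕ} (hP : P.totalDegree ≤ n)
    (hQ : Q.totalDegree ≤ n) (S : Finset (Fin 2 → ℝ))
    (hS : ∀ p ∈ S, eval p P = 0 ∧ eval p Q = 0 ∧ 0 < jac P Q p) :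
    LinearMap.range (evL (n - 1) S) = ⊤ := by
  classical
  by_contra hne
  obtain ⟨φ, hφ, hle⟩ := Submodule.exists_le_ker_of_lt_top _ (lt_top_iff_ne_top.mpr hne)
  have hφs : ∀ g : S → ℝ, φ g = ∑ p : S, g p * φ (Pi.single p 1) := by
    intro g
    conv_lhs => rw [LinearMap.pi_apply_eq_sum_univ φ g]
    apply Finset.sum_congr rfl
    intro p _
    rw [smul_eq_mul]
    congr 2
    funext q
    simp [Pi.single_apply, eq_comm]
  have hz := independent hP hQ S hS
    (fun p => if hp : p ∈ S then φ (Pi.single ⟨p, hp⟩ 1) else 0) (by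
    intro f hf
    have hfm : f ∈ restrictTotalDegree (Fin 2) ℝ (n - 1) := (mem_restrictTotalDegree _ _ _).mpr hf
    have h1 : φ (evL (n - 1) S ⟨f, hfm⟩) = 0 := hle (LinearMap.mem_range_self _ _)
    rw [hφs] at h1
    rw [← h1, ← Finset.sum_attach]
    apply Finset.sum_congr rfl
    intro p _
    simp only [Finset.coe_mem, dif_pos, Subtype.coe_eta, evL, LinearMap.coe_mk, AddHom.coe_mk]
    ring)
  apply hφ
  apply LinearMap.ext
  intro g
  rw [hφs, LinearMap.zero_apply]
  apply Finset.sum_eq_zero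
  intro p _
  have h3 := hz p.1 p.2
  simp only [Finset.coe_mem, dif_pos, Subtype.coe_eta] at h3
  rw [h3, mul_zero]

/-- **Antisaddles on a curve.** -/
theorem card_curve {P Q : MvPolynomial (Fin 2) ℝ} {n m : ℕ} (hn : 1 ≤ n)
    (hP : P.totalDegree ≤ n) (hQ : Q.totalDegree ≤ n) (S : Finset (Fin 2 → ℝ))
    (hS : ∀ p ∈ S, eval p P = 0 ∧ eval p Q = 0 ∧ 0 < jac P Q p)
    (D : MvPolynomial (Fin 2) ℝ) (hD : D ≠ 0) (hDm : D.totalDegree ≤ m) (hmn : m ≤ n)
    (hSD : ∀ p ∈ S, eval p D = 0) :
    S.card + (n - m) * (n - m + 1) / 2 ≤ n * (n + 1) / 2 := by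
  classical
  have hrn := LinearMap.finrank_range_add_finrank_ker (evL (n - 1) S)
  rw [evL_surj hP hQ S hS, finrank_top, finrank_deg, Module.finrank_fintype_fun_eq_card,
    Fintype.card_coe] at hrn
  have e1 : n - 1 + 1 = n := by omega
  have e2 : n - 1 + 2 = n + 1 := by omega
  rw [e1, e2] at hrn
  rcases Nat.lt_or_ge m n with hlt | hge
  · have hker : Module.finrank ℝ (restrictTotalDegree (Fin 2) ℝ (n - 1 - m)) ≤
        Module.finrank ℝ (LinearMap.ker (evL (n - 1) S)) := by
      have hmem : ∀ g : restrictTotalDegree (Fin 2) ℝ (n - 1 - m),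
          D * g.1 ∈ restrictTotalDegree (Fin 2) ℝ (n - 1) := by
        intro g
        rw [mem_restrictTotalDegree]
        have h1 := totalDegree_mul D g.1
        have h2 := (mem_restrictTotalDegree _ _ _).mp g.2
        omega
      let L : restrictTotalDegree (Fin 2) ℝ (n - 1 - m) →ₗ[ℝ] LinearMap.ker (evL (n - 1) S) :=
        { toFun := fun g => ⟨⟨D * g.1, hmem g⟩, by
            rw [LinearMap.mem_ker]
            funext p
            simp only [evL, LinearMap.coe_mk, AddHom.coe_mk, map_mul, hSD p.1 p.2, zero_mul,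
              Pi.zero_apply]⟩
          map_add' := fun g g' => by
            apply Subtype.ext; apply Subtype.ext
            simp [mul_add]
          map_smul' := fun c g => by
            apply Subtype.ext; apply Subtype.ext
            simp }
      apply LinearMap.finrank_le_finrank_of_injective (f := L)
      intro g g' hg
      have h1 : D * g.1 = D * g'.1 := congrArg (fun z => z.1.1) hg
      exact Subtype.ext (mul_left_cancel₀ hD h1)
    rw [finrank_deg] at hker
    have e3 : n - 1 - m + 1 = n - m := by omega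
    have e4 : n - 1 - m + 2 = n - m + 1 := by omega
    rw [e3, e4] at hker
    omega
  · have : m = n := le_antisymm hmn hge
    subst this
    simp
    omega

/-- arithmetic: on a curve of degree `m` with `m ≤ (n - m)² + 1` the bound is `(n² + 1) / 2` -/
theorem card_curve' {P Q : MvPolynomial (Fin 2) ℝ} {n m : ℕ} (hn : 1 ≤ n)
    (hP : P.totalDegree ≤ n) (hQ : Q.totalDegree ≤ n) (S : Finset (Fin 2 → ℝ))
    (hS : ∀ p ∈ S, eval p P = 0 ∧ eval p Q = 0 ∧ 0 < jac P Q p)
    (D : MvPolynomial (Fin 2) ℝ) (hD : D ≠ 0) (hDm : D.totalDegree ≤ m) (hmn : m ≤ n)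
    (hmm : m ≤ (n - m) ^ 2 + 1) (hSD : ∀ p ∈ S, eval p D = 0) :
    S.card ≤ (n ^ 2 + 1) / 2 := by
  have h := card_curve hn hP hQ S hS D hD hDm hmn hSD
  obtain ⟨j, rfl⟩ := Nat.exists_eq_add_of_le hmn
  rw [Nat.add_sub_cancel_left] at h hmm
  have ev1 : 2 * ((m + j) * (m + j + 1) / 2) = (m + j) * (m + j + 1) :=
    Nat.mul_div_cancel' (Nat.even_mul_succ_self _).two_dvd
  have ev2 : 2 * (j * (j + 1) / 2) = j * (j + 1) :=
    Nat.mul_div_cancel' (Nat.even_mul_succ_self _).two_dvd
  rw [Nat.le_div_iff_mul_le (by norm_num)]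
  have h2 : S.card * 2 + j * (j + 1) ≤ (m + j) * (m + j + 1) := by omega
  nlinarith

end Pool.Agent.PlanarCentres
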