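import Pool.Agent.PlanarCentres.Lyap
import Pool.Agent.PlanarCentres.Curve

/-!
# Cofactors of invariant algebraic curves vanish at centres
-/

namespace Pool.Agent.PlanarCentres

open MvPolynomial Finset Topology

/-- chain rule for polynomials along a curve -/
theorem hasDerivAt_eval (f : MvPolynomial (Fin 2) ℝ) {γ : ℝ → Fin 2 → ℝ} {v : Fin 2 → ℝ} {t : ℝ}
    (h : HasDerivAt γ v t) :
    HasDerivAt (fun s => eval (γ s) f)
      (eval (γ t) (pderiv 0 f) * v 0 + eval (γ t) (pderiv 1 f) * v 1) t := by
  induction f using MvPolynomial.induction_on with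
  | C a => simpa using hasDerivAt_const t a
  | add p q hp hq =>
    have := hp.add hq
    simp only [map_add]
    refine this.congr_deriv ?_
    ring
  | mul_X p i hp =>
    have h1 : HasDerivAt (fun s => γ s i) (v i) t := hasDerivAt_pi.mp h i
    have := hp.mul h1
    simp only [map_mul, eval_X]
    refine this.congr_deriv ?_
    fin_cases i
    · simp only [Fin.zero_eta, Derivation.leibniz, pderiv_X_self, smul_eq_mul, mul_one, map_add,
        map_mul, eval_X]
      rw [pderiv_X_of_ne (by decide)]
      simp only [mul_zero, map_zero, zero_add]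
      ring
    · simp only [Fin.mk_one, Derivation.leibniz, pderiv_X_self, smul_eq_mul, mul_one, map_add,
        map_mul, eval_X]
      rw [pderiv_X_of_ne (by decide)]
      simp only [mul_zero, map_zero, zero_add]
      ring

/-- a periodic function with nonnegative derivative has zero derivative -/
theorem periodic_deriv_zero {V G : ℝ → ℝ} {T : ℝ} (hT : 0 < T) (hV : ∀ t, HasDerivAt V (G t) t)
    (hG : ∀ t, 0 ≤ G t) (hper : ∀ t, V (t + T) = V t) : ∀ t, G t = 0 := by
  have hmono : Monotone V :=
    monotone_of_deriv_nonneg (fun t => (hV t).differentiableAt)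
      (fun t => by rw [(hV t).deriv]; exact hG t)
  have hVn : ∀ (n : ℕ) t, V (t + n * T) = V t := by
    intro n
    induction n with
    | zero => intro t; simp
    | succ n ih =>
      intro t
      have : t + ((n + 1 : ℕ) : ℝ) * T = (t + n * T) + T := by push_cast; ring
      rw [this, hper, ih]
  have hconst : ∀ s t, V s ≤ V t := by
    intro s t
    obtain ⟨n, hn⟩ := exists_nat_gt ((s - t) / T)
    have : s ≤ t + n * T := by
      rw [div_lt_iff₀ hT] at hn
      linarith
    calc V s ≤ V (t + n * T) := hmono this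
      _ = V t := hVn n t
  have hV0 : V = fun _ => V 0 := by
    funext t; exact le_antisymm (hconst t 0) (hconst 0 t)
  intro t
  have h5 := hV t
  rw [hV0] at h5
  exact h5.unique (hasDerivAt_const t (V 0))

/-- a nonzero polynomial does not vanish identically on a neighbourhood of a point, even away from
the point -/
theorem exists_ne_zero_near {f : MvPolynomial (Fin 2) ℝ} (hf : f ≠ 0) (p : Fin 2 → ℝ)
    {U : Set (Fin 2 → ℝ)} (hU : U ∈ 𝓝 p) : ∃ q ∈ U, q ≠ p ∧ eval q f ≠ 0 := by
  by_contra hcon
  push Not at hcon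
  obtain ⟨ε, hε, hball⟩ := Metric.mem_nhds_iff.mp hU
  have h1 : f * (X 0 - C (p 0)) = 0 := by
    apply MvPolynomial.funext_set (fun i => Set.Ioo (p i - ε) (p i + ε))
      (fun i => Set.Ioo_infinite (by linarith))
    intro x hx
    rw [map_zero, map_mul]
    by_cases hxp : x = p
    · rw [hxp]; simp
    · have hxU : x ∈ U := by
        apply hball
        rw [Metric.mem_ball, dist_pi_lt_iff hε]
        intro i
        have := hx i (Set.mem_univ i)
        rw [Real.dist_eq, abs_lt]
        constructor <;> [linarith [this.1]; linarith [this.2]]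
      rw [hcon x hxU hxp, zero_mul]
  rcases mul_eq_zero.mp h1 with h2 | h2
  · exact hf h2
  · have h3 := congrArg (eval (fun _ => p 0 + 1)) h2
    simp at h3

/-- **Cofactors vanish at centres.** -/
theorem cofactor_zero {P Q f K : MvPolynomial (Fin 2) ℝ} {p : Fin 2 → ℝ} (hc : IsCentre P Q p)
    (hf : f ≠ 0) (hK : P * pderiv 0 f + Q * pderiv 1 f = K * f) : eval p K = 0 := by
  by_contra hne
  have hcont : Continuous fun x : Fin 2 → ℝ => eval p K * eval x K :=
    continuous_const.mul (MvPolynomial.continuous_eval K)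
  have hpos : 0 < eval p K * eval p K := mul_self_pos.mpr hne
  have hW : {x : Fin 2 → ℝ | 0 < eval p K * eval x K} ∈ 𝓝 p :=
    hcont.continuousAt.eventually (lt_mem_nhds hpos)
  obtain ⟨U, hU, hUW, hq⟩ := hc.2.2 _ hW
  obtain ⟨q, hqU, hqp, hfq⟩ := exists_ne_zero_near hf p hU
  obtain ⟨γ, ⟨hsol, ⟨T, hT, hper⟩, -⟩, hγ0, hγU⟩ := hq q hqU hqp
  have hd : ∀ t, HasDerivAt (fun t => eval p K * (eval (γ t) f) ^ 2)
      (2 * ((eval p K * eval (γ t) K) * (eval (γ t) f) ^ 2)) t := by
    intro t
    have h1 := ((hasDerivAt_eval f (hsol t)).pow 2).const_mul (eval p K)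
    refine h1.congr_deriv ?_
    have h2 := congrArg (eval (γ t)) hK
    simp only [map_add, map_mul] at h2
    simp only [Matrix.cons_val_zero, Matrix.cons_val_one]
    simp only [Nat.cast_ofNat, Nat.add_one_sub_one, pow_one]
    linear_combination (2 * eval p K * eval (γ t) f) * h2
  have hz := periodic_deriv_zero hT hd (fun t => by
    have h3 : 0 < eval p K * eval (γ t) K := hUW (hγU t).1
    positivity) (fun t => by simp only [hper t]) 0
  have h4 : 0 < eval p K * eval (γ 0) K := hUW (hγU 0).1
  rw [hγ0] at hz h4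
  have h5 : 0 < (eval q f) ^ 2 := by positivity
  have : 0 < 2 * ((eval p K * eval q K) * (eval q f) ^ 2) := by positivity
  exact this.ne' hz

theorem totalDegree_pderiv_le (f : MvPolynomial (Fin 2) ℝ) (i : Fin 2) :
    (pderiv i f).totalDegree ≤ f.totalDegree - 1 := by
  conv_lhs => rw [← support_sum_monomial_coeff f]
  rw [map_sum]
  apply totalDegree_finsetSum_le
  intro s hs
  rw [pderiv_monomial]
  by_cases h0 : s i = 0
  · rw [h0, Nat.cast_zero, mul_zero, monomial_zero, totalDegree_zero]
    exact Nat.zero_le _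
  · refine (totalDegree_monomial_le _ _).trans ?_
    have h1 := deg_two le_rfl hs
    have h3 : ((s - Finsupp.single i 1).sum fun _ => id) =
        (s - Finsupp.single i 1 : Fin 2 →₀ ℕ) 0 + (s - Finsupp.single i 1 : Fin 2 →₀ ℕ) 1 :=
      sum_two _
    rw [h3]
    fin_cases i
    · simp only [Fin.zero_eta, Finsupp.coe_tsub, Pi.sub_apply, Finsupp.single_eq_same] at *
      have h2 : (Finsupp.single (0 : Fin 2) 1 : Fin 2 →₀ ℕ) 1 = 0 := by
        simp
      rw [h2]
      omega
    · simp only [Fin.mk_one, Finsupp.coe_tsub, Pi.sub_apply, Finsupp.single_eq_same] at *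
      have h2 : (Finsupp.single (1 : Fin 2) 1 : Fin 2 →₀ ℕ) 0 = 0 := by
        simp
      rw [h2]
      omega

/-- a nonzero cofactor has degree at most `n - 1` -/
theorem cofactor_degree {P Q f K : MvPolynomial (Fin 2) ℝ} {n : ℕ} (hn : 1 ≤ n)
    (hP : P.totalDegree ≤ n) (hQ : Q.totalDegree ≤ n) (hf : f ≠ 0) (hK0 : K ≠ 0)
    (hK : P * pderiv 0 f + Q * pderiv 1 f = K * f) : K.totalDegree ≤ n - 1 := by
  have h1 : (K * f).totalDegree = K.totalDegree + f.totalDegree :=
    totalDegree_mul_of_isDomain hK0 hf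
  have h2 : (P * pderiv 0 f + Q * pderiv 1 f).totalDegree ≤ n + (f.totalDegree - 1) := by
    refine (totalDegree_add _ _).trans (max_le ?_ ?_)
    · exact (totalDegree_mul _ _).trans (add_le_add hP (totalDegree_pderiv_le f 0))
    · exact (totalDegree_mul _ _).trans (add_le_add hQ (totalDegree_pderiv_le f 1))
  rw [hK, h1] at h2
  rcases Nat.eq_zero_or_pos f.totalDegree with hf0 | hfpos
  · -- constant `f`: then `K = 0`
    exfalso
    rw [totalDegree_eq_zero_iff_eq_C] at hf0
    rw [hf0, pderiv_C, pderiv_C, mul_zero, mul_zero, add_zero] at hK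
    rcases mul_eq_zero.mp hK.symm with h3 | h3
    · exact hK0 h3
    · exact hf (hf0.trans h3)
  · omega

theorem divergence_degree {P Q : MvPolynomial (Fin 2) ℝ} {n : ℕ}
    (hP : P.totalDegree ≤ n) (hQ : Q.totalDegree ≤ n) :
    (pderiv 0 P + pderiv 1 Q).totalDegree ≤ n - 1 := by
  have h1 := totalDegree_pderiv_le P 0
  have h2 := totalDegree_pderiv_le Q 1
  refine (totalDegree_add _ _).trans (max_le ?_ ?_) <;> omega

/-- Linearly independent polynomials of degree at most `n - 1` vanishing on `S` lower the bound. -/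
theorem card_add_le {P Q : MvPolynomial (Fin 2) ℝ} {n k : ℕ} (hn : 1 ≤ n)
    (hP : P.totalDegree ≤ n) (hQ : Q.totalDegree ≤ n) (S : Finset (Fin 2 → ℝ))
    (hS : ∀ p ∈ S, eval p P = 0 ∧ eval p Q = 0 ∧ 0 < jac P Q p)
    (K : Fin k → MvPolynomial (Fin 2) ℝ) (hK : LinearIndependent ℝ K)
    (hKd : ∀ i, (K i).totalDegree ≤ n - 1) (hKS : ∀ i, ∀ p ∈ S, eval p (K i) = 0) :
    S.card + k ≤ n * (n + 1) / 2 := by
  classical
  have hrn := LinearMap.finrank_range_add_finrank_ker (evL (n - 1) S)
  rw [evL_surj hP hQ S hS, finrank_top, finrank_deg, Module.finrank_fintype_fun_eq_card,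
    Fintype.card_coe] at hrn
  have e1 : n - 1 + 1 = n := by omega
  have e2 : n - 1 + 2 = n + 1 := by omega
  rw [e1, e2] at hrn
  let K' : Fin k → LinearMap.ker (evL (n - 1) S) := fun i =>
    ⟨⟨K i, (mem_restrictTotalDegree _ _ _).mpr (hKd i)⟩, by
      rw [LinearMap.mem_ker]
      funext p
      exact hKS i p.1 p.2⟩
  have hK' : LinearIndependent ℝ K' := by
    let L : LinearMap.ker (evL (n - 1) S) →ₗ[ℝ] MvPolynomial (Fin 2) ℝ :=
      (restrictTotalDegree (Fin 2) ℝ (n - 1)).subtype ∘ₗ (LinearMap.ker (evL (n - 1) S)).subtype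
    exact LinearIndependent.of_comp L hK
  have := hK'.fintype_card_le_finrank
  rw [Fintype.card_fin] at this
  omega

end Pool.Agent.PlanarCentres
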