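import Pool.Agent.PlanarCentres.LineMain

/-!
# Reduction of an arbitrary invariant line to `x = 0`
-/

namespace Pool.Agent.PlanarCentres

open MvPolynomial Finset

/-- the affine map `w ↦ b + M w` -/
def aff (M : Fin 2 → Fin 2 → ℝ) (b w : Fin 2 → ℝ) : Fin 2 → ℝ :=
  fun i => b i + M i 0 * w 0 + M i 1 * w 1

/-- substitution of an affine map -/
noncomputable def sub (M : Fin 2 → Fin 2 → ℝ) (b : Fin 2 → ℝ) :
    MvPolynomial (Fin 2) ℝ →ₐ[ℝ] MvPolynomial (Fin 2) ℝ :=
  aeval fun i => C (b i) + C (M i 0) * X 0 + C (M i 1) * X 1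

theorem eval_sub' (M : Fin 2 → Fin 2 → ℝ) (b : Fin 2 → ℝ) (p : MvPolynomial (Fin 2) ℝ)
    (x : Fin 2 → ℝ) : eval x (sub M b p) = eval (aff M b x) p := by
  induction p using MvPolynomial.induction_on with
  | C a => simp [sub]
  | add p q hp hq => rw [map_add, map_add, map_add, hp, hq]
  | mul_X p i hp =>
    rw [map_mul, map_mul, map_mul, hp, eval_X]
    congr 1
    simp [sub, aff]

theorem pderiv_sub' (M : Fin 2 → Fin 2 → ℝ) (b : Fin 2 → ℝ) (p : MvPolynomial (Fin 2) ℝ)
    (j : Fin 2) : pderiv j (sub M b p) =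
      C (M 0 j) * sub M b (pderiv 0 p) + C (M 1 j) * sub M b (pderiv 1 p) := by
  induction p using MvPolynomial.induction_on with
  | C a => simp [sub]
  | add p q hp hq => simp only [map_add, hp, hq]; ring
  | mul_X p i hp =>
    have h1 : ∀ i, sub M b (X i) = C (b i) + C (M i 0) * X 0 + C (M i 1) * X 1 := by
      intro i; simp [sub]
    have h2 : ∀ i, pderiv j (C (b i) + C (M i 0) * X 0 + C (M i 1) * X 1 :
        MvPolynomial (Fin 2) ℝ) = C (M i j) := by
      intro i
      rw [map_add, map_add, pderiv_C, zero_add, Derivation.leibniz, Derivation.leibniz, pderiv_C,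
        pderiv_C, smul_zero, smul_zero, add_zero, add_zero, smul_eq_mul, smul_eq_mul]
      fin_cases j
      · simp only [Fin.zero_eta, pderiv_X_self, mul_one]
        rw [pderiv_X_of_ne (by decide), mul_zero, add_zero]
      · simp only [Fin.mk_one, pderiv_X_self, mul_one]
        rw [pderiv_X_of_ne (by decide), mul_zero, zero_add]
    rw [map_mul, Derivation.leibniz, hp, h1, h2, Derivation.leibniz, Derivation.leibniz]
    simp only [smul_eq_mul, map_add, map_mul, h1]
    fin_cases i
    · simp only [Fin.zero_eta, pderiv_X_self, map_one, mul_one]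
      rw [pderiv_X_of_ne (by decide), map_zero]
      ring
    · simp only [Fin.mk_one, pderiv_X_self, map_one, mul_one]
      rw [pderiv_X_of_ne (by decide), map_zero]
      ring

theorem totalDegree_afflin (M : Fin 2 → Fin 2 → ℝ) (b : Fin 2 → ℝ) (i : Fin 2) (k : ℕ) :
    ((C (b i) + C (M i 0) * X 0 + C (M i 1) * X 1 : MvPolynomial (Fin 2) ℝ) ^ k).totalDegree
      ≤ k := by
  refine (totalDegree_pow _ _).trans ?_
  have h1 : (C (b i) + C (M i 0) * X 0 + C (M i 1) * X 1 : MvPolynomial (Fin 2) ℝ).totalDegree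
      ≤ 1 := by
    refine (totalDegree_add _ _).trans (max_le ?_ ?_)
    · refine (totalDegree_add _ _).trans (max_le ?_ ?_)
      · rw [totalDegree_C]; exact Nat.zero_le _
      · refine (totalDegree_mul _ _).trans ?_
        rw [totalDegree_C, totalDegree_X]
    · refine (totalDegree_mul _ _).trans ?_
      rw [totalDegree_C, totalDegree_X]
  calc k * (C (b i) + C (M i 0) * X 0 + C (M i 1) * X 1 : MvPolynomial (Fin 2) ℝ).totalDegree
      ≤ k * 1 := Nat.mul_le_mul_left _ h1
    _ = k := mul_one k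

theorem totalDegree_sub' (M : Fin 2 → Fin 2 → ℝ) (b : Fin 2 → ℝ) {k : ℕ}
    {p : MvPolynomial (Fin 2) ℝ} (hp : p.totalDegree ≤ k) : (sub M b p).totalDegree ≤ k := by
  conv_lhs => rw [← support_sum_monomial_coeff p]
  rw [map_sum]
  apply totalDegree_finsetSum_le
  intro s hs
  have h1 : sub M b (monomial s (coeff s p)) =
      C (coeff s p) * ((C (b 0) + C (M 0 0) * X 0 + C (M 0 1) * X 1) ^ s 0 *
        (C (b 1) + C (M 1 0) * X 0 + C (M 1 1) * X 1) ^ s 1) := by
    rw [sub, aeval_monomial, Finsupp.prod_fintype _ _ (fun i => by simp), Fin.prod_univ_two]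
    rfl
  rw [h1]
  refine (totalDegree_mul _ _).trans ?_
  rw [totalDegree_C, zero_add]
  refine (totalDegree_mul _ _).trans ?_
  have h2 := totalDegree_afflin M b 0 (s 0)
  have h3 := totalDegree_afflin M b 1 (s 1)
  have h4 := deg_two hp hs
  omega

/-- a polynomial vanishing on the line `x = 0` is divisible by `x` -/
theorem X0_dvd {f : MvPolynomial (Fin 2) ℝ} (hf : ∀ v : ℝ, eval ![0, v] f = 0) :
    ∃ A, f = X 0 * A := by
  have hln : ln f = 0 := by
    apply Polynomial.funext
    intro v
    rw [Polynomial.eval_zero, ← hf v]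
    have h1 := aeval_lpt (v : ℂ) f
    have h2 : lpt (v : ℂ) = cpt ![0, v] := by
      funext i
      fin_cases i <;> simp [lpt, cpt]
    rw [h2, aeval_cpt] at h1
    have h3 : Polynomial.aeval (v : ℂ) (ln f) = ((Polynomial.eval v (ln f) : ℝ) : ℂ) := by
      have := Polynomial.aeval_algebraMap_apply ℂ v (ln f)
      simpa [Polynomial.coe_aeval_eq_eval] using this
    rw [h3] at h1
    exact_mod_cast h1.symm
  have h : (X 0 : MvPolynomial (Fin 2) ℝ) ∣ f := by
    rw [← support_sum_monomial_coeff f]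
    apply Finset.dvd_sum
    intro s hs
    have hs0 : s 0 ≠ 0 := by
      intro h0
      have h1 : s = Finsupp.single 1 (s 1) := by
        ext i
        fin_cases i
        · simpa using h0
        · simp
      have h2 := ln_coeff f (s 1)
      rw [hln, Polynomial.coeff_zero, ← h1] at h2
      exact (mem_support_iff.mp hs) h2.symm
    rw [X_dvd_monomial]
    exact Or.inr hs0
  obtain ⟨A, hA⟩ := h
  exact ⟨A, hA⟩

/-- **Invariant line, general position.** -/
theorem line_general {P Q : MvPolynomial (Fin 2) ℝ} {n : ℕ} (hn : 3 ≤ n)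
    (hP : P.totalDegree ≤ n) (hQ : Q.totalDegree ≤ n) (a b c : ℝ) (hab : a ≠ 0 ∨ b ≠ 0)
    (hinv : ∀ x : Fin 2 → ℝ, a * x 0 + b * x 1 + c = 0 → a * eval x P + b * eval x Q = 0)
    (S : Finset (Fin 2 → ℝ))
    (hS : ∀ p ∈ S, eval p P = 0 ∧ eval p Q = 0 ∧ 0 < jac P Q p ∧
      eval p (pderiv 0 P + pderiv 1 Q) = 0) :
    S.card + 2 ≤ n * (n + 1) / 2 := by
  classical
  set N : ℝ := a ^ 2 + b ^ 2 with hN
  have hN0 : 0 < N := by
    rcases hab with h | h
    · have : 0 < a ^ 2 := by positivity
      nlinarith [sq_nonneg b]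
    · have : 0 < b ^ 2 := by positivity
      nlinarith [sq_nonneg a]
  have hNne : N ≠ 0 := hN0.ne'
  set M : Fin 2 → Fin 2 → ℝ := ![![a / N, -b], ![b / N, a]] with hM
  set v : Fin 2 → ℝ := ![-(c * a) / N, -(c * b) / N] with hv
  have hM00 : M 0 0 = a / N := by simp [hM]
  have hM01 : M 0 1 = -b := by simp [hM]
  have hM10 : M 1 0 = b / N := by simp [hM]
  have hM11 : M 1 1 = a := by simp [hM]
  have hv0 : v 0 = -(c * a) / N := by simp [hv]
  have hv1 : v 1 = -(c * b) / N := by simp [hv]
  set P' : MvPolynomial (Fin 2) ℝ := C a * sub M v P + C b * sub M v Q with hP'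
  set Q' : MvPolynomial (Fin 2) ℝ := C (-b / N) * sub M v P + C (a / N) * sub M v Q with hQ'
  have hdC : ∀ (r : ℝ) {f : MvPolynomial (Fin 2) ℝ}, f.totalDegree ≤ n →
      (C r * f).totalDegree ≤ n := by
    intro r f hf
    refine (totalDegree_mul _ _).trans ?_
    rw [totalDegree_C, zero_add]; exact hf
  have hP'd : P'.totalDegree ≤ n := (totalDegree_add _ _).trans
    (max_le (hdC _ (totalDegree_sub' _ _ hP)) (hdC _ (totalDegree_sub' _ _ hQ)))
  have hQ'd : Q'.totalDegree ≤ n := (totalDegree_add _ _).trans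
    (max_le (hdC _ (totalDegree_sub' _ _ hP)) (hdC _ (totalDegree_sub' _ _ hQ)))
  obtain ⟨A, hA⟩ := X0_dvd (f := P') (by
    intro y
    rw [hP', map_add, map_mul, map_mul, eval_C, eval_C, eval_sub', eval_sub']
    apply hinv
    simp only [aff, hM00, hM01, hM10, hM11, hv0, hv1, Matrix.cons_val_zero, Matrix.cons_val_one]
    field_simp
    rw [hN]; ring)
  have hAd : A.totalDegree ≤ n - 1 := by
    by_cases hA0 : A = 0
    · rw [hA0, totalDegree_zero]; exact Nat.zero_le _
    · rw [hA, totalDegree_mul_of_isDomain (X_ne_zero _) hA0, totalDegree_X] at hP'd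
      omega
  -- the inverse map
  let g : (Fin 2 → ℝ) → (Fin 2 → ℝ) := fun p =>
    ![a * p 0 + b * p 1 + c, (-b * p 0 + a * p 1) / N]
  have hg : ∀ p, aff M v (g p) = p := by
    intro p
    funext i
    fin_cases i
    · simp only [aff, g, Fin.zero_eta, hM00, hM01, hv0, Matrix.cons_val_zero,
        Matrix.cons_val_one]
      field_simp
      rw [hN]; ring
    · simp only [aff, g, Fin.mk_one, hM10, hM11, hv1, Matrix.cons_val_zero,
        Matrix.cons_val_one]
      field_simp
      rw [hN]; ring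
  have hginj : Function.Injective g := fun p q h => by rw [← hg p, ← hg q, h]
  have hder : ∀ (r s : ℝ) (p : Fin 2 → ℝ) (j : Fin 2),
      eval (g p) (pderiv j (C r * sub M v P + C s * sub M v Q)) =
      r * (M 0 j * eval p (pderiv 0 P) + M 1 j * eval p (pderiv 1 P)) +
      s * (M 0 j * eval p (pderiv 0 Q) + M 1 j * eval p (pderiv 1 Q)) := by
    intro r s p j
    rw [map_add, Derivation.leibniz, Derivation.leibniz, pderiv_C, pderiv_C, smul_zero, smul_zero,
      add_zero, add_zero, smul_eq_mul, smul_eq_mul, pderiv_sub', pderiv_sub']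
    simp only [map_add, map_mul, eval_C, eval_sub', hg]
  have hmain := line_main hn hAd hQ'd (S.image g) (by
    intro w hw
    obtain ⟨p, hp, rfl⟩ := mem_image.mp hw
    obtain ⟨h1, h2, h3, h4⟩ := hS p hp
    rw [← hA]
    refine ⟨?_, ?_, ?_, ?_⟩
    · rw [hP', map_add, map_mul, map_mul, eval_sub', eval_sub', hg, h1, h2]; simp
    · rw [hQ', map_add, map_mul, map_mul, eval_sub', eval_sub', hg, h1, h2]; simp
    · have : jac P' Q' (g p) = jac P Q p := by
        rw [jac, jac, hP', hQ', hder, hder, hder, hder, hM00, hM01, hM10, hM11]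
        field_simp
        rw [hN]; ring
      rw [this]; exact h3
    · rw [map_add] at h4 ⊢
      rw [hP', hQ', hder, hder, hM00, hM01, hM10, hM11]
      have : eval p (pderiv 1 Q) = - eval p (pderiv 0 P) := by linarith
      rw [this]
      field_simp
      rw [hN]; ring)
  rw [card_image_of_injective _ hginj] at hmain
  exact hmain

end Pool.Agent.PlanarCentres
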