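import Pool.Agent.PlanarCentres.Bez

/-!
# Centrally symmetric planar systems

At most `(n² + 1) / 2` common zeros with positive Jacobian.
-/

namespace Pool.Agent.PlanarCentres

open MvPolynomial Finset

/-- the polynomial `p(2a - x)` -/
noncomputable def refl (a : Fin 2 → ℝ) : MvPolynomial (Fin 2) ℝ →ₐ[ℝ] MvPolynomial (Fin 2) ℝ :=
  aeval fun i => C (a i + a i) - X i

theorem eval_refl (a : Fin 2 → ℝ) (p : MvPolynomial (Fin 2) ℝ) (x : Fin 2 → ℝ) :
    eval x (refl a p) = eval (a + a - x) p := by
  induction p using MvPolynomial.induction_on with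
  | C a => simp [refl]
  | add p q hp hq => rw [map_add, map_add, map_add, hp, hq]
  | mul_X p i hp =>
    rw [map_mul, map_mul, map_mul, hp, eval_X]
    congr 1
    simp [refl]

theorem pderiv_refl (a : Fin 2 → ℝ) (p : MvPolynomial (Fin 2) ℝ) (i : Fin 2) :
    pderiv i (refl a p) = - refl a (pderiv i p) := by
  induction p using MvPolynomial.induction_on with
  | C a => simp [refl]
  | add p q hp hq => rw [map_add, map_add, map_add, map_add, hp, hq]; ring
  | mul_X p j hp =>
    have h1 : refl a (X j) = C (a j + a j) - X j := by simp [refl]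
    rw [map_mul, Derivation.leibniz, Derivation.leibniz, map_add, h1, hp]
    simp only [smul_eq_mul, map_mul, map_sub, h1, pderiv_C]
    by_cases h : j = i
    · subst h
      simp only [pderiv_X_self, map_one]
      ring
    · rw [pderiv_X_of_ne h]
      simp only [map_zero]
      ring

/-- If `p(2a - x) = e p(x)` then the partial derivatives satisfy `∂p(2a - x) = - e ∂p(x)`. -/
theorem eval_pderiv_refl {a : Fin 2 → ℝ} {p : MvPolynomial (Fin 2) ℝ} {e : ℝ}
    (h : ∀ x : Fin 2 → ℝ, eval (a + a - x) p = e * eval x p) (i : Fin 2) (x : Fin 2 → ℝ) :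
    eval (a + a - x) (pderiv i p) = - (e * eval x (pderiv i p)) := by
  have h1 : refl a p = C e * p := by
    apply MvPolynomial.funext
    intro x
    rw [eval_refl, h, map_mul, eval_C]
  have h2 := pderiv_refl a p i
  rw [h1, Derivation.leibniz, pderiv_C, smul_zero, add_zero, smul_eq_mul] at h2
  have h3 := congrArg (eval x) h2
  rw [map_mul, eval_C, map_neg, eval_refl] at h3
  linarith

theorem jac_refl {a : Fin 2 → ℝ} {P Q : MvPolynomial (Fin 2) ℝ} {e : ℝ} (he : e = 1 ∨ e = -1)
    (h : ∀ x : Fin 2 → ℝ, eval (a + a - x) P = e * eval x P ∧ eval (a + a - x) Q = e * eval x Q)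
    (x : Fin 2 → ℝ) : jac P Q (a + a - x) = jac P Q x := by
  unfold jac
  rw [eval_pderiv_refl (fun x => (h x).1), eval_pderiv_refl (fun x => (h x).2),
    eval_pderiv_refl (fun x => (h x).1), eval_pderiv_refl (fun x => (h x).2)]
  rcases he with rfl | rfl <;> ring

/-- the polynomial `p(x + a)` -/
noncomputable def shift (a : Fin 2 → ℝ) : MvPolynomial (Fin 2) ℝ →ₐ[ℝ] MvPolynomial (Fin 2) ℝ :=
  aeval fun i => X i + C (a i)

theorem eval_shift (a : Fin 2 → ℝ) (p : MvPolynomial (Fin 2) ℝ) (x : Fin 2 → ℝ) :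
    eval x (shift a p) = eval (x + a) p := by
  induction p using MvPolynomial.induction_on with
  | C a => simp [shift]
  | add p q hp hq => rw [map_add, map_add, map_add, hp, hq]
  | mul_X p i hp =>
    rw [map_mul, map_mul, map_mul, hp, eval_X]
    congr 1
    simp [shift]

theorem totalDegree_lin (a : Fin 2 → ℝ) (i : Fin 2) (k : ℕ) :
    ((X i + C (a i) : MvPolynomial (Fin 2) ℝ) ^ k).totalDegree ≤ k := by
  refine (totalDegree_pow _ _).trans ?_
  have h1 : (X i + C (a i) : MvPolynomial (Fin 2) ℝ).totalDegree ≤ 1 := by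
    refine (totalDegree_add _ _).trans ?_
    rw [totalDegree_X, totalDegree_C]
    simp
  calc k * (X i + C (a i) : MvPolynomial (Fin 2) ℝ).totalDegree ≤ k * 1 :=
        Nat.mul_le_mul_left _ h1
    _ = k := mul_one k

theorem totalDegree_shift (a : Fin 2 → ℝ) {k : ℕ} {p : MvPolynomial (Fin 2) ℝ}
    (hp : p.totalDegree ≤ k) : (shift a p).totalDegree ≤ k := by
  conv_lhs => rw [← support_sum_monomial_coeff p]
  rw [map_sum]
  apply totalDegree_finsetSum_le
  intro s hs
  have h1 : shift a (monomial s (coeff s p)) =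
      C (coeff s p) * ((X 0 + C (a 0)) ^ s 0 * (X 1 + C (a 1)) ^ s 1) := by
    rw [shift, aeval_monomial, Finsupp.prod_fintype _ _ (fun i => by simp), Fin.prod_univ_two]
    rfl
  rw [h1]
  refine (totalDegree_mul _ _).trans ?_
  rw [totalDegree_C, zero_add]
  refine (totalDegree_mul _ _).trans ?_
  have h2 := totalDegree_lin a 0 (s 0)
  have h3 := totalDegree_lin a 1 (s 1)
  have h4 := deg_two hp hs
  omega

/-- monomial functions -/
def mon (m : ℕ × ℕ) (x : Fin 2 → ℝ) : ℝ := x 0 ^ m.1 * x 1 ^ m.2

theorem mon_neg (m : ℕ × ℕ) (x : Fin 2 → ℝ) : mon m (-x) = (-1) ^ (m.1 + m.2) * mon m x := by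
  unfold mon
  simp only [Pi.neg_apply]
  rw [neg_pow, neg_pow (x 1), pow_add]
  ring

/-- it suffices to test monomials -/
theorem kill_of_mon {k : ℕ} (a : Fin 2 → ℝ) (S : Finset (Fin 2 → ℝ)) (W : (Fin 2 → ℝ) → ℝ)
    (h : ∀ m : ℕ × ℕ, m.1 + m.2 ≤ k → ∑ p ∈ S, W p * mon m (p - a) = 0)
    (f : MvPolynomial (Fin 2) ℝ) (hf : f.totalDegree ≤ k) : ∑ p ∈ S, W p * eval p f = 0 := by
  have : ∀ p ∈ S, W p * eval p f =
      ∑ s ∈ (shift a f).support, coeff s (shift a f) * (W p * mon (s 0, s 1) (p - a)) := by
    intro p _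
    have h0 := eval_shift a f (p - a)
    rw [sub_add_cancel] at h0
    rw [← h0, eval_two, Finset.mul_sum]
    apply Finset.sum_congr rfl
    intro s _
    simp only [mon]
    ring
  rw [Finset.sum_congr rfl this, Finset.sum_comm]
  apply Finset.sum_eq_zero
  intro s hs
  rw [← Finset.mul_sum, h (s 0, s 1) (deg_two (totalDegree_shift a hf) hs), mul_zero]

/-- the exponents of degree at most `n - 1` with the parity of `n` -/
def parM (n : ℕ) : Finset (ℕ × ℕ) :=
  ((range n).filter fun d => d % 2 = n % 2).biUnion fun d => antidiagonal d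

theorem mem_parM {n : ℕ} {m : ℕ × ℕ} :
    m ∈ parM n ↔ m.1 + m.2 < n ∧ (m.1 + m.2) % 2 = n % 2 := by
  simp only [parM, mem_biUnion, mem_filter, mem_range, HasAntidiagonal.mem_antidiagonal]
  constructor
  · rintro ⟨d, ⟨h1, h2⟩, h3⟩
    rw [h3]; exact ⟨h1, h2⟩
  · rintro ⟨h1, h2⟩
    exact ⟨_, ⟨h1, h2⟩, rfl⟩

theorem sum_par (n : ℕ) : ∑ d ∈ (range n).filter (fun d => d % 2 = n % 2), (d + 1) = n ^ 2 / 4 := by
  induction n using Nat.strong_induction_on with
  | _ n ih =>
    match n with
    | 0 => simp
    | 1 => decide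
    | (k + 2) =>
      have h1 := ih k (by omega)
      have h2 : (range (k + 2)).filter (fun d => d % 2 = (k + 2) % 2) =
          insert k ((range k).filter fun d => d % 2 = k % 2) := by
        ext d
        simp only [mem_filter, mem_range, mem_insert]
        omega
      rw [h2, Finset.sum_insert (by simp), h1]
      have h3 : (k + 2) ^ 2 = k ^ 2 + 4 * (k + 1) := by ring
      rw [h3]
      omega

theorem card_parM (n : ℕ) : (parM n).card ≤ n ^ 2 / 4 := by
  rw [← sum_par]
  refine card_biUnion_le.trans (le_of_eq ?_)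
  apply Finset.sum_congr rfl
  intro d _
  rw [Finset.Nat.card_antidiagonal]

/-- linear algebra: a family of functionals without common zero on weights -/
theorem card_le_of_kill (a : Fin 2 → ℝ) (T : Finset (Fin 2 → ℝ)) (M : Finset (ℕ × ℕ))
    (h : ∀ w : (Fin 2 → ℝ) → ℝ, (∀ m ∈ M, ∑ p ∈ T, w p * mon m (p - a) = 0) →
      ∀ p ∈ T, w p = 0) :
    T.card ≤ M.card := by
  classical
  let L : (T → ℝ) →ₗ[ℝ] (M → ℝ) :=
    { toFun := fun w m => ∑ p : T, w p * mon m.1 (p.1 - a)
      map_add' := fun w v => by
        funext m; simp [add_mul, Finset.sum_add_distrib]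
      map_smul' := fun c w => by
        funext m
        simp only [Pi.smul_apply, smul_eq_mul, RingHom.id_apply, Finset.mul_sum]
        apply Finset.sum_congr rfl
        intro p _
        ring }
  have hinj : Function.Injective L := by
    rw [← LinearMap.ker_eq_bot, LinearMap.ker_eq_bot']
    intro w hw
    have h1 := h (fun p => if hp : p ∈ T then w ⟨p, hp⟩ else 0) (by
      intro m hm
      have h2 := congrFun hw ⟨m, hm⟩
      rw [← Finset.sum_attach]
      simp only [Finset.coe_mem, dif_pos, Subtype.coe_eta]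
      exact h2)
    funext p
    have h3 := h1 p.1 p.2
    simp only [Finset.coe_mem, dif_pos, Subtype.coe_eta] at h3
    exact h3
  have := LinearMap.finrank_le_finrank_of_injective hinj
  simpa using this

/-- lexicographic positivity -/
def lpos (x : Fin 2 → ℝ) : Prop := 0 < x 0 ∨ (x 0 = 0 ∧ 0 < x 1)

theorem lpos_neg {x : Fin 2 → ℝ} (h : lpos x) : ¬ lpos (-x) := by
  unfold lpos at *
  simp only [Pi.neg_apply] at *
  rintro (h1 | ⟨h1, h2⟩) <;> rcases h with h | ⟨h, h'⟩ <;> linarith

theorem lpos_tri (x : Fin 2 → ℝ) : lpos x ∨ lpos (-x) ∨ x = 0 := by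
  by_contra hcon
  push Not at hcon
  obtain ⟨h1, h2, h3⟩ := hcon
  unfold lpos at h1 h2
  simp only [Pi.neg_apply] at h1 h2
  push Not at h1 h2
  have h0 : x 0 = 0 := le_antisymm (h1.1) (by linarith [h2.1])
  have h4 : x 1 = 0 := le_antisymm (h1.2 h0) (by linarith [h2.2 (by simp [h0])])
  apply h3
  funext i
  fin_cases i
  · exact h0
  · exact h4

theorem not_lpos_zero : ¬ lpos 0 := by
  unfold lpos; simp

/-- parity version of the independence lemma -/
theorem independent_par {P Q : MvPolynomial (Fin 2) ℝ} {n : ℕ} (hn : 1 ≤ n)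
    (hP : P.totalDegree ≤ n)
    (hQ : Q.totalDegree ≤ n) (a : Fin 2 → ℝ) (S : Finset (Fin 2 → ℝ))
    (hS : ∀ p ∈ S, eval p P = 0 ∧ eval p Q = 0 ∧ 0 < jac P Q p)
    (hsym : ∀ p ∈ S, a + a - p ∈ S) (W : (Fin 2 → ℝ) → ℝ)
    (hW : ∀ p ∈ S, W (a + a - p) = (-1) ^ n * W p)
    (hk : ∀ m ∈ parM n, ∑ p ∈ S, W p * mon m (p - a) = 0) : ∀ p ∈ S, W p = 0 := by
  refine independent hP hQ S hS W (kill_of_mon a S W ?_)
  intro m hm
  by_cases hpar : (m.1 + m.2) % 2 = n % 2
  · exact hk m (mem_parM.mpr ⟨by omega, hpar⟩)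
  · have h1 : ∑ p ∈ S, W p * mon m (p - a) =
        ∑ p ∈ S, W (a + a - p) * mon m (a + a - p - a) := by
      refine Finset.sum_nbij' (fun p => a + a - p) (fun p => a + a - p) ?_ ?_ ?_ ?_ ?_
      · intro p hp; exact hsym p hp
      · intro p hp; exact hsym p hp
      · intro p _; exact sub_sub_cancel _ _
      · intro p _; exact sub_sub_cancel _ _
      · intro p _; simp only [sub_sub_cancel]
    have h2 : ∑ p ∈ S, W (a + a - p) * mon m (a + a - p - a) =
        -∑ p ∈ S, W p * mon m (p - a) := by
      rw [← Finset.sum_neg_distrib]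
      apply Finset.sum_congr rfl
      intro p hp
      have h4 : a + a - p - a = -(p - a) := by abel
      rw [hW p hp, h4, mon_neg]
      have h3 : ((-1 : ℝ) ^ n) * (-1) ^ (m.1 + m.2) = -1 := by
        rw [← pow_add]
        apply Odd.neg_one_pow
        rw [Nat.odd_iff]
        omega
      linear_combination (W p * mon m (p - a)) * h3
    linarith

/-- **Centrally symmetric sets.** A set of common zeros with positive Jacobian determinant of two
polynomials of degree at most `n`, symmetric about a point, has at most `(n² + 1) / 2` elements. -/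
theorem card_symm_set {P Q : MvPolynomial (Fin 2) ℝ} {n : ℕ} (hn : 1 ≤ n)
    (hP : P.totalDegree ≤ n) (hQ : Q.totalDegree ≤ n) (a : Fin 2 → ℝ)
    (S' : Finset (Fin 2 → ℝ)) (hS2 : ∀ p ∈ S', eval p P = 0 ∧ eval p Q = 0 ∧ 0 < jac P Q p)
    (hsym : ∀ p ∈ S', a + a - p ∈ S') :
    S'.card ≤ (n ^ 2 + 1) / 2 := by
  classical
  have hr : ∀ p : Fin 2 → ℝ, a + a - p - a = -(p - a) := fun p => by abel
  have hinj : Function.Injective (fun p : Fin 2 → ℝ => a + a - p) := fun p q h => by
    simpa using h
  -- half sets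
  set T : Finset (Fin 2 → ℝ) := S'.filter (fun p => lpos (p - a)) with hT
  set T0 : Finset (Fin 2 → ℝ) := S'.filter (fun p => p = a) with hT0
  have hT0c : T0.card ≤ 1 := by
    apply card_le_one.mpr
    intro x hx y hy
    rw [hT0, mem_filter] at hx hy
    rw [hx.2, hy.2]
  have hTdisj : Disjoint T T0 := by
    rw [Finset.disjoint_left]
    intro p hp hp0
    rw [hT, mem_filter] at hp
    rw [hT0, mem_filter] at hp0
    rw [hp0.2, sub_self] at hp
    exact not_lpos_zero hp.2
  set Tm : Finset (Fin 2 → ℝ) := S'.filter (fun p => lpos (-(p - a))) with hTm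
  have hTmcard : Tm = T.image (fun p => a + a - p) := by
    ext p
    simp only [hTm, hT, mem_filter, mem_image]
    constructor
    · rintro ⟨h1, h2⟩
      exact ⟨a + a - p, ⟨hsym p h1, by rw [hr]; exact h2⟩, sub_sub_cancel _ _⟩
    · rintro ⟨q, ⟨h1, h2⟩, rfl⟩
      exact ⟨hsym q h1, by rw [hr, neg_neg]; exact h2⟩
  have htri : ∀ p : Fin 2 → ℝ, lpos (p - a) ∨ lpos (-(p - a)) ∨ p = a := by
    intro p
    rcases lpos_tri (p - a) with h1 | h1 | h1
    · exact Or.inl h1
    · exact Or.inr (Or.inl h1)
    · exact Or.inr (Or.inr (sub_eq_zero.mp h1))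
  have hsplit : S' = T ∪ Tm ∪ T0 := by
    ext p
    simp only [hTm, hT, hT0, mem_filter, mem_union]
    constructor
    · intro hp
      rcases htri p with h1 | h1 | h1
      · exact Or.inl (Or.inl ⟨hp, h1⟩)
      · exact Or.inl (Or.inr ⟨hp, h1⟩)
      · exact Or.inr ⟨hp, h1⟩
    · rintro ((h1 | h1) | h1) <;> exact h1.1
  have hd1 : Disjoint T Tm := by
    rw [Finset.disjoint_left]
    intro p hp hpm
    rw [hT, mem_filter] at hp
    rw [hTm, mem_filter] at hpm
    exact lpos_neg hp.2 hpm.2
  have hd2 : Disjoint (T ∪ Tm) T0 := by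
    rw [Finset.disjoint_left]
    intro p hp hp0
    rw [hT0, mem_filter] at hp0
    rcases mem_union.mp hp with hp | hp
    · rw [hT, mem_filter, hp0.2, sub_self] at hp
      exact not_lpos_zero hp.2
    · rw [hTm, mem_filter, hp0.2, sub_self, neg_zero] at hp
      exact not_lpos_zero hp.2
  have hsumS : ∀ g : (Fin 2 → ℝ) → ℝ, ∑ p ∈ S', g p =
      ∑ p ∈ T, (g p + g (a + a - p)) + ∑ p ∈ T0, g p := by
    intro g
    rw [hsplit, sum_union hd2, sum_union hd1, hTmcard, sum_image (by
      intro x _ y _ hxy; exact hinj hxy), sum_add_distrib]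
  have hcard : S'.card = 2 * T.card + T0.card := by
    rw [hsplit, card_union_of_disjoint hd2, card_union_of_disjoint hd1, hTmcard,
      card_image_of_injective _ hinj]
    ring
  -- the odd case uses `T`, the even case uses `T ∪ T0`
  rcases Nat.even_or_odd n with hev | hodd
  · have hkey : (T ∪ T0).card ≤ (parM n).card := by
      apply card_le_of_kill a
      intro w hw
      let W : (Fin 2 → ℝ) → ℝ := fun p =>
        if lpos (p - a) then w p else if lpos (-(p - a)) then w (a + a - p) else 2 * w p
      have hWT : ∀ p ∈ T, W p = w p := by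
        intro p hp
        rw [hT, mem_filter] at hp
        simp only [W, if_pos hp.2]
      have hWTm : ∀ p ∈ T, W (a + a - p) = w p := by
        intro p hp
        rw [hT, mem_filter] at hp
        simp only [W, hr, if_neg (lpos_neg hp.2), neg_neg, if_pos hp.2, sub_sub_cancel]
      have hW0 : ∀ p ∈ T0, W p = 2 * w p := by
        intro p hp
        rw [hT0, mem_filter] at hp
        simp only [W, hp.2, sub_self, neg_zero, if_neg not_lpos_zero]
      have hWneg : ∀ p ∈ S', W (a + a - p) = (-1) ^ n * W p := by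
        intro p _
        rw [hev.neg_one_pow, one_mul]
        rcases htri p with h1 | h1 | h1
        · simp only [W, hr, if_neg (lpos_neg h1), neg_neg, if_pos h1, sub_sub_cancel]
        · have h2 : ¬ lpos (p - a) := by
            have := lpos_neg h1; rwa [neg_neg] at this
          simp only [W, hr, if_pos h1, if_neg h2]
        · rw [h1, add_sub_cancel_right]
      have hz := independent_par hn hP hQ a S' hS2 hsym W hWneg (by
        intro m hm
        rw [hsumS]
        have h3 := hw m hm
        rw [sum_union hTdisj] at h3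
        have h4 : ∑ p ∈ T, (W p * mon m (p - a) + W (a + a - p) * mon m (a + a - p - a)) =
            2 * ∑ p ∈ T, w p * mon m (p - a) := by
          rw [Finset.mul_sum]
          apply Finset.sum_congr rfl
          intro p hp
          rw [hWT p hp, hWTm p hp, hr, mon_neg]
          have : Even (m.1 + m.2) := by
            rw [Nat.even_iff, (mem_parM.mp hm).2, ← Nat.even_iff]; exact hev
          rw [this.neg_one_pow]
          ring
        have h5 : ∑ p ∈ T0, W p * mon m (p - a) = 2 * ∑ p ∈ T0, w p * mon m (p - a) := by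
          rw [Finset.mul_sum]
          apply Finset.sum_congr rfl
          intro p hp
          rw [hW0 p hp]
          ring
        rw [h4, h5]
        linarith)
      intro p hp
      rcases mem_union.mp hp with hp | hp
      · rw [← hWT p hp]
        exact hz p (mem_filter.mp hp).1
      · have := hz p (mem_filter.mp hp).1
        rw [hW0 p hp] at this
        linarith
    rw [card_union_of_disjoint hTdisj] at hkey
    have hM := card_parM n
    obtain ⟨k, rfl⟩ := hev
    have e1 : (k + k) ^ 2 / 4 = k ^ 2 := by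
      have : (k + k) ^ 2 = 4 * k ^ 2 := by ring
      omega
    have e2 : ((k + k) ^ 2 + 1) / 2 = 2 * k ^ 2 := by
      have : (k + k) ^ 2 = 4 * k ^ 2 := by ring
      omega
    omega
  · have hkey : T.card ≤ (parM n).card := by
      apply card_le_of_kill a
      intro w hw
      let W : (Fin 2 → ℝ) → ℝ := fun p =>
        if lpos (p - a) then w p else if lpos (-(p - a)) then -w (a + a - p) else 0
      have hWT : ∀ p ∈ T, W p = w p := by
        intro p hp
        rw [hT, mem_filter] at hp
        simp only [W, if_pos hp.2]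
      have hWTm : ∀ p ∈ T, W (a + a - p) = -w p := by
        intro p hp
        rw [hT, mem_filter] at hp
        simp only [W, hr, if_neg (lpos_neg hp.2), neg_neg, if_pos hp.2, sub_sub_cancel]
      have hW0 : ∀ p ∈ T0, W p = 0 := by
        intro p hp
        rw [hT0, mem_filter] at hp
        simp only [W, hp.2, sub_self, neg_zero, if_neg not_lpos_zero]
      have hWneg : ∀ p ∈ S', W (a + a - p) = (-1) ^ n * W p := by
        intro p _
        rw [hodd.neg_one_pow]
        rcases htri p with h1 | h1 | h1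
        · simp only [W, hr, if_neg (lpos_neg h1), neg_neg, if_pos h1, sub_sub_cancel]
          ring
        · have h2 : ¬ lpos (p - a) := by
            have := lpos_neg h1; rwa [neg_neg] at this
          simp only [W, hr, if_pos h1, if_neg h2]
          ring
        · simp only [W, h1, add_sub_cancel_right, sub_self, neg_zero, if_neg not_lpos_zero,
            mul_zero]
      have hz := independent_par hn hP hQ a S' hS2 hsym W hWneg (by
        intro m hm
        rw [hsumS]
        have h3 := hw m hm
        have h4 : ∑ p ∈ T, (W p * mon m (p - a) + W (a + a - p) * mon m (a + a - p - a)) =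
            2 * ∑ p ∈ T, w p * mon m (p - a) := by
          rw [Finset.mul_sum]
          apply Finset.sum_congr rfl
          intro p hp
          rw [hWT p hp, hWTm p hp, hr, mon_neg]
          have : Odd (m.1 + m.2) := by
            rw [Nat.odd_iff, (mem_parM.mp hm).2, ← Nat.odd_iff]; exact hodd
          rw [this.neg_one_pow]
          ring
        have h5 : ∑ p ∈ T0, W p * mon m (p - a) = 0 := by
          apply Finset.sum_eq_zero
          intro p hp
          rw [hW0 p hp, zero_mul]
        rw [h4, h5, h3]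
        ring)
      intro p hp
      rw [← hWT p hp]
      exact hz p (mem_filter.mp hp).1
    have hM := card_parM n
    obtain ⟨k, rfl⟩ := hodd
    have e1 : (2 * k + 1) ^ 2 / 4 = k ^ 2 + k := by
      have : (2 * k + 1) ^ 2 = 4 * (k ^ 2 + k) + 1 := by ring
      omega
    have e2 : ((2 * k + 1) ^ 2 + 1) / 2 = 2 * (k ^ 2 + k) + 1 := by
      have : (2 * k + 1) ^ 2 = 4 * (k ^ 2 + k) + 1 := by ring
      omega
    omega

/-- **Centrally symmetric systems.** If `X(2a - x) = ± X(x)` for `X = (P, Q)` then there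
are at most `(n² + 1) / 2` common zeros with positive Jacobian determinant. -/
theorem card_symm {P Q : MvPolynomial (Fin 2) ℝ} {n : ℕ} (hn : 1 ≤ n)
    (hP : P.totalDegree ≤ n) (hQ : Q.totalDegree ≤ n) (a : Fin 2 → ℝ) {e : ℝ}
    (he : e = 1 ∨ e = -1)
    (h : ∀ x : Fin 2 → ℝ, eval (a + a - x) P = e * eval x P ∧ eval (a + a - x) Q = e * eval x Q)
    (S : Finset (Fin 2 → ℝ)) (hS : ∀ p ∈ S, eval p P = 0 ∧ eval p Q = 0 ∧ 0 < jac P Q p) :
    S.card ≤ (n ^ 2 + 1) / 2 := by
  classical
  -- pass to a symmetric set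
  set S' : Finset (Fin 2 → ℝ) := S ∪ S.image (fun p => a + a - p) with hS'
  have hS2 : ∀ p ∈ S', eval p P = 0 ∧ eval p Q = 0 ∧ 0 < jac P Q p := by
    intro p hp
    rcases mem_union.mp hp with hp | hp
    · exact hS p hp
    · obtain ⟨q, hq, rfl⟩ := mem_image.mp hp
      obtain ⟨h1, h2, h3⟩ := hS q hq
      refine ⟨?_, ?_, ?_⟩
      · rw [(h q).1, h1, mul_zero]
      · rw [(h q).2, h2, mul_zero]
      · rw [jac_refl he h]; exact h3
  have hsym : ∀ p ∈ S', a + a - p ∈ S' := by
    intro p hp
    rcases mem_union.mp hp with hp | hp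
    · exact mem_union_right _ (mem_image_of_mem _ hp)
    · obtain ⟨q, hq, rfl⟩ := mem_image.mp hp
      rw [sub_sub_cancel]; exact mem_union_left _ hq
  have hSS : S.card ≤ S'.card := card_le_card subset_union_left
  exact hSS.trans (card_symm_set hn hP hQ a S' hS2 hsym)

end Pool.Agent.PlanarCentres
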