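import Pool.Agent.PlanarCentres.BezC
import Pool.Agent.PlanarCentres.Curve

/-!
# The argument on an invariant line
-/

namespace Pool.Agent.PlanarCentres

open MvPolynomial Finset

/-- real points as complex points -/
noncomputable def cpt (p : Fin 2 → ℝ) : Fin 2 → ℂ := fun i => (p i : ℂ)

/-- points of the line `x = 0` -/
noncomputable def lpt (z : ℂ) : Fin 2 → ℂ := ![0, z]

theorem aeval_cpt (p : Fin 2 → ℝ) (f : MvPolynomial (Fin 2) ℝ) :
    aeval (cpt p) f = ((eval p f : ℝ) : ℂ) := by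
  rw [aeval_two, eval_two]
  push_cast
  rfl

theorem jacC_cpt (P Q : MvPolynomial (Fin 2) ℝ) (p : Fin 2 → ℝ) :
    jacC P Q (cpt p) = ((jac P Q p : ℝ) : ℂ) := by
  rw [jacC, jac, aeval_cpt, aeval_cpt, aeval_cpt, aeval_cpt]
  push_cast
  rfl

theorem cpt_inj : Function.Injective cpt := by
  intro p q h
  funext i
  have := congrFun h i
  simpa [cpt] using this

theorem lpt_inj : Function.Injective lpt := by
  intro z w h
  have := congrFun h 1
  simpa [lpt] using this

/-- restriction of a polynomial to the line `x = 0` -/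
noncomputable def ln (f : MvPolynomial (Fin 2) ℝ) : Polynomial ℝ := aeval ![0, Polynomial.X] f

theorem aeval_lpt (z : ℂ) (f : MvPolynomial (Fin 2) ℝ) :
    aeval (lpt z) f = Polynomial.aeval z (ln f) := by
  induction f using MvPolynomial.induction_on with
  | C a => simp [ln]
  | add p q hp hq => simp only [ln, map_add] at *; rw [hp, hq]
  | mul_X p i hp =>
    simp only [ln, map_mul, aeval_X] at *
    rw [hp]
    congr 1
    fin_cases i <;> simp [lpt]

theorem ln_derivative (f : MvPolynomial (Fin 2) ℝ) :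
    Polynomial.derivative (ln f) = ln (pderiv 1 f) := by
  induction f using MvPolynomial.induction_on with
  | C a => simp [ln]
  | add p q hp hq => simp only [ln, map_add] at *; rw [hp, hq]
  | mul_X p i hp =>
    have h1 : ln (p * X i) = ln p * ln (X i) := by simp [ln]
    have h2 : ∀ a b : MvPolynomial (Fin 2) ℝ, ln (a * b) = ln a * ln b := by
      intro a b; simp [ln]
    have h3 : ∀ a b : MvPolynomial (Fin 2) ℝ, ln (a + b) = ln a + ln b := by
      intro a b; simp [ln]
    rw [h1, Polynomial.derivative_mul, hp, Derivation.leibniz, smul_eq_mul, smul_eq_mul, h3, h2,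
      h2]
    fin_cases i
    · have e1 : ln (X (0 : Fin 2)) = 0 := by simp [ln]
      have e2 : pderiv (1 : Fin 2) (X 0 : MvPolynomial (Fin 2) ℝ) = 0 :=
        pderiv_X_of_ne (by decide)
      simp only [Fin.zero_eta]
      rw [e1, e2]
      simp [ln]
    · have e1 : ln (X (1 : Fin 2)) = Polynomial.X := by simp [ln]
      have e2 : ln (1 : MvPolynomial (Fin 2) ℝ) = 1 := by simp [ln]
      simp only [Fin.mk_one, pderiv_X_self]
      rw [e1, e2, Polynomial.derivative_X]
      ring

theorem ln_coeff (f : MvPolynomial (Fin 2) ℝ) (k : ℕ) :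
    (ln f).coeff k = coeff (Finsupp.single 1 k) f := by
  have h0 : ∀ (s : Fin 2 →₀ ℕ) (c : ℝ), (ln (monomial s c)).coeff k =
      coeff (Finsupp.single 1 k) (monomial s c) := by
    intro s c
    rw [coeff_monomial]
    have h1 : ln (monomial s c) = Polynomial.C c * ((0 : Polynomial ℝ) ^ s 0 *
        Polynomial.X ^ s 1) := by
      rw [ln, aeval_monomial, Finsupp.prod_fintype _ _ (fun i => by simp), Fin.prod_univ_two]
      rfl
    rw [h1]
    by_cases hs0 : s 0 = 0
    · rw [hs0, pow_zero, one_mul, Polynomial.coeff_C_mul, Polynomial.coeff_X_pow]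
      by_cases hs1 : s 1 = k
      · have : s = Finsupp.single 1 k := by
          ext i
          fin_cases i
          · simpa using hs0
          · simpa using hs1
        rw [if_pos this, if_pos hs1.symm, mul_one]
      · have : ¬ s = Finsupp.single 1 k := by
          intro h
          apply hs1
          rw [h]; simp
        rw [if_neg this, if_neg (Ne.symm hs1), mul_zero]
    · have : ¬ s = Finsupp.single 1 k := by
        intro h
        apply hs0
        rw [h]; simp
      rw [if_neg this, zero_pow hs0, zero_mul, mul_zero, Polynomial.coeff_zero]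
  conv_lhs => rw [← support_sum_monomial_coeff f]
  conv_rhs => rw [← support_sum_monomial_coeff f]
  have h1 : ln (∑ s ∈ f.support, monomial s (coeff s f)) =
      ∑ s ∈ f.support, ln (monomial s (coeff s f)) := by
    unfold ln
    rw [map_sum]
  rw [h1, Polynomial.finsetSum_coeff, coeff_sum]
  exact Finset.sum_congr rfl fun s _ => h0 s _

/-- choice of roots -/
theorem root_choice (q : Polynomial ℝ) (hq : 3 ≤ q.natDegree) :
    (∃ z : ℂ, Polynomial.aeval z q = 0 ∧ Polynomial.aeval z (Polynomial.derivative q) = 0) ∨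
    ∃ z1 z2 : ℂ, Polynomial.aeval z1 q = 0 ∧ Polynomial.aeval z2 q = 0 ∧ z2 ≠ z1 ∧
      z2 ≠ (starRingEnd ℂ) z1 := by
  classical
  set qC : Polynomial ℂ := q.map (algebraMap ℝ ℂ) with hqC
  have hdeg : qC.natDegree = q.natDegree := Polynomial.natDegree_map _
  have hq0 : qC ≠ 0 := by
    intro h
    rw [h, Polynomial.natDegree_zero] at hdeg
    omega
  have hcard : qC.roots.card = qC.natDegree :=
    (IsAlgClosed.splits qC).natDegree_eq_card_roots.symm
  have hroot : ∀ z, z ∈ qC.roots → Polynomial.aeval z q = 0 := by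
    intro z hz
    have := (Polynomial.mem_roots hq0).mp hz
    rwa [Polynomial.IsRoot, hqC, Polynomial.eval_map_algebraMap] at this
  by_cases hnd : qC.roots.Nodup
  · right
    have h3 : 3 ≤ qC.roots.toFinset.card := by
      rw [Multiset.toFinset_card_of_nodup hnd, hcard, hdeg]; exact hq
    obtain ⟨z1, hz1⟩ : qC.roots.toFinset.Nonempty := card_pos.mp (by omega)
    have h4 : (qC.roots.toFinset \ {z1, (starRingEnd ℂ) z1}).Nonempty := by
      apply card_pos.mp
      have h5 := Finset.le_card_sdiff {z1, (starRingEnd ℂ) z1} qC.roots.toFinset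
      have h6 : ({z1, (starRingEnd ℂ) z1} : Finset ℂ).card ≤ 2 := card_le_two
      omega
    obtain ⟨z2, hz2⟩ := h4
    rw [mem_sdiff, mem_insert, mem_singleton] at hz2
    push Not at hz2
    exact ⟨z1, z2, hroot z1 (Multiset.mem_toFinset.mp hz1),
      hroot z2 (Multiset.mem_toFinset.mp hz2.1), hz2.2.1, hz2.2.2⟩
  · left
    rw [Multiset.nodup_iff_count_le_one] at hnd
    push Not at hnd
    obtain ⟨z, hz⟩ := hnd
    rw [Polynomial.count_roots] at hz
    have h7 := (Polynomial.one_lt_rootMultiplicity_iff_isRoot hq0).mp hz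
    refine ⟨z, ?_, ?_⟩
    · have := h7.1
      rwa [Polynomial.IsRoot, hqC, Polynomial.eval_map_algebraMap] at this
    · have := h7.2
      rwa [Polynomial.IsRoot, hqC, Polynomial.derivative_map,
        Polynomial.eval_map_algebraMap] at this

/-- representation of functionals by weights -/
theorem exists_weight {P Q A : MvPolynomial (Fin 2) ℝ} {n : ℕ} (hn : 1 ≤ n)
    (hP : P.totalDegree ≤ n) (hQ : Q.totalDegree ≤ n) (S : Finset (Fin 2 → ℝ))
    (hS : ∀ p ∈ S, eval p P = 0 ∧ eval p Q = 0 ∧ 0 < jac P Q p)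
    (hA0 : A ≠ 0) (hA : A.totalDegree ≤ n - 1) (hAS : ∀ p ∈ S, eval p A = 0)
    (hcard : S.card + 1 = n * (n + 1) / 2) (v : MvPolynomial (Fin 2) ℝ →ₗ[ℝ] ℝ)
    (hv : v A = 0) :
    ∃ w : (Fin 2 → ℝ) → ℝ, ∀ f : MvPolynomial (Fin 2) ℝ, f.totalDegree ≤ n - 1 →
      ∑ p ∈ S, w p * eval p f = v f := by
  classical
  have hrn := LinearMap.finrank_range_add_finrank_ker (evL (n - 1) S)
  have hsurj := evL_surj hP hQ S hS
  rw [hsurj, finrank_top, finrank_deg, Module.finrank_fintype_fun_eq_card,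
    Fintype.card_coe] at hrn
  have e1 : n - 1 + 1 = n := by omega
  have e2 : n - 1 + 2 = n + 1 := by omega
  rw [e1, e2] at hrn
  have hk1 : Module.finrank ℝ (LinearMap.ker (evL (n - 1) S)) = 1 := by omega
  let A' : LinearMap.ker (evL (n - 1) S) :=
    ⟨⟨A, (mem_restrictTotalDegree _ _ _).mpr hA⟩, by
      rw [LinearMap.mem_ker]
      funext p
      exact hAS p.1 p.2⟩
  have hA'0 : A' ≠ 0 := by
    intro h
    exact hA0 (congrArg (fun z => z.1.1) h)
  have hall := (finrank_eq_one_iff_of_nonzero' A' hA'0).mp hk1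
  obtain ⟨g, hg⟩ := LinearMap.exists_rightInverse_of_surjective (evL (n - 1) S) hsurj
  let v' : restrictTotalDegree (Fin 2) ℝ (n - 1) →ₗ[ℝ] ℝ :=
    v ∘ₗ (restrictTotalDegree (Fin 2) ℝ (n - 1)).subtype
  let φ : (S → ℝ) →ₗ[ℝ] ℝ := v' ∘ₗ g
  have hφ : ∀ f, φ (evL (n - 1) S f) = v' f := by
    intro f
    have h1 : f - g (evL (n - 1) S f) ∈ LinearMap.ker (evL (n - 1) S) := by
      rw [LinearMap.mem_ker, map_sub]
      have := congrArg (fun L => L (evL (n - 1) S f)) hg
      simp only [LinearMap.comp_apply, LinearMap.id_apply] at this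
      rw [this, sub_self]
    obtain ⟨c, hc⟩ := hall ⟨_, h1⟩
    have h2 : v' (f - g (evL (n - 1) S f)) = 0 := by
      have h3 : f - g (evL (n - 1) S f) = c • A'.1 := (congrArg (fun z => z.1) hc).symm
      rw [h3, map_smul]
      have : v' A'.1 = v A := rfl
      rw [this, hv, smul_zero]
    rw [map_sub, sub_eq_zero] at h2
    exact h2.symm
  have hφs : ∀ g : S → ℝ, φ g = ∑ p : S, g p * φ (Pi.single p 1) := by
    intro g
    conv_lhs => rw [LinearMap.pi_apply_eq_sum_univ φ g]
    apply Finset.sum_congr rfl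
    intro p _
    rw [smul_eq_mul]
    congr 2
    funext q
    simp [Pi.single_apply, eq_comm]
  refine ⟨fun p => if hp : p ∈ S then φ (Pi.single ⟨p, hp⟩ 1) else 0, ?_⟩
  intro f hf
  have hfm : f ∈ restrictTotalDegree (Fin 2) ℝ (n - 1) := (mem_restrictTotalDegree _ _ _).mpr hf
  have h1 : φ (evL (n - 1) S ⟨f, hfm⟩) = v f := hφ ⟨f, hfm⟩
  rw [hφs] at h1
  rw [← h1, ← Finset.sum_attach]
  apply Finset.sum_congr rfl
  intro p _
  simp only [Finset.coe_mem, dif_pos, Subtype.coe_eta, evL, LinearMap.coe_mk, AddHom.coe_mk]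
  ring

/-- the quadratic relation for weights on `S` and on the line `x = 0` -/
theorem line_quad {A Q : MvPolynomial (Fin 2) ℝ} {n : ℕ} (hn : 1 ≤ n) (lam : ℝ)
    (hA : A.totalDegree ≤ n - 1) (hQ : Q.totalDegree ≤ n)
    (hrel : pderiv 1 Q = -(C lam * A) - X 0 * pderiv 0 A) (S : Finset (Fin 2 → ℝ))
    (hS : ∀ p ∈ S, p 0 ≠ 0 ∧ eval p A = 0 ∧ eval p Q = 0)
    (w : (Fin 2 → ℝ) → ℝ) (Zl : Finset ℂ) (hZl : ∀ z ∈ Zl, aeval (lpt z) Q = 0) (E : ℂ → ℂ)
    (hE : ∀ f : MvPolynomial (Fin 2) ℝ, f.totalDegree ≤ n - 1 →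
      (((∑ p ∈ S, w p * eval p f : ℝ)) : ℂ) = ∑ z ∈ Zl, E z * aeval (lpt z) f) :
    (((∑ p ∈ S, w p ^ 2 * jac (X 0 * A) Q p : ℝ)) : ℂ) -
      (lam : ℂ) * ∑ z ∈ Zl, (E z * aeval (lpt z) A) ^ 2 = 0 := by
  classical
  have hP : (X 0 * A : MvPolynomial (Fin 2) ℝ).totalDegree ≤ n := by
    refine (totalDegree_mul _ _).trans ?_
    rw [totalDegree_X]
    omega
  have hd : Disjoint (S.image cpt) (Zl.image lpt) := by
    rw [Finset.disjoint_left]
    intro x hx hx'
    obtain ⟨p, hp, rfl⟩ := mem_image.mp hx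
    obtain ⟨z, _, hz⟩ := mem_image.mp hx'
    have := congrFun hz 0
    simp only [lpt, cpt, Matrix.cons_val_zero] at this
    exact (hS p hp).1 (by exact_mod_cast this.symm)
  have h := quad_relation hP hQ (S.image cpt ∪ Zl.image lpt) (by
    intro x hx
    rcases mem_union.mp hx with hx | hx
    · obtain ⟨p, hp, rfl⟩ := mem_image.mp hx
      rw [map_mul, aeval_cpt, aeval_cpt, aeval_cpt, (hS p hp).2.1, (hS p hp).2.2]
      simp
    · obtain ⟨z, hz, rfl⟩ := mem_image.mp hx
      refine ⟨?_, hZl z hz⟩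
      rw [map_mul, aeval_X]
      simp [lpt])
    (fun x => if x 0 = 0 then - E (x 1) else (w (fun i => (x i).re) : ℂ)) (by
    intro f hf
    rw [sum_union hd, sum_image (fun a _ b _ hab => cpt_inj hab),
      sum_image (fun a _ b _ hab => lpt_inj hab)]
    have h1 : ∑ p ∈ S, (if cpt p 0 = 0 then - E (cpt p 1) else
        (w (fun i => (cpt p i).re) : ℂ)) * aeval (cpt p) f =
        (((∑ p ∈ S, w p * eval p f : ℝ)) : ℂ) := by
      push_cast
      apply Finset.sum_congr rfl
      intro p hp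
      have h2 : ¬ cpt p 0 = 0 := by
        simp only [cpt]
        exact_mod_cast (hS p hp).1
      have h3 : (fun i => (cpt p i).re) = p := by
        funext i; simp [cpt]
      rw [if_neg h2, h3, aeval_cpt]
    have h4 : ∑ z ∈ Zl, (if lpt z 0 = 0 then - E (lpt z 1) else
        (w (fun i => (lpt z i).re) : ℂ)) * aeval (lpt z) f =
        - ∑ z ∈ Zl, E z * aeval (lpt z) f := by
      rw [← Finset.sum_neg_distrib]
      apply Finset.sum_congr rfl
      intro z _
      have h5 : lpt z 0 = 0 := by simp [lpt]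
      have h6 : lpt z 1 = z := by simp [lpt]
      rw [if_pos h5, h6]
      ring
    rw [h1, h4, hE f hf]
    ring)
  rw [sum_union hd, sum_image (fun a _ b _ hab => cpt_inj hab),
    sum_image (fun a _ b _ hab => lpt_inj hab)] at h
  have h1 : ∑ p ∈ S, (if cpt p 0 = 0 then - E (cpt p 1) else
      (w (fun i => (cpt p i).re) : ℂ)) ^ 2 * jacC (X 0 * A) Q (cpt p) =
      (((∑ p ∈ S, w p ^ 2 * jac (X 0 * A) Q p : ℝ)) : ℂ) := by
    push_cast
    apply Finset.sum_congr rfl
    intro p hp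
    have h2 : ¬ cpt p 0 = 0 := by
      simp only [cpt]
      exact_mod_cast (hS p hp).1
    have h3 : (fun i => (cpt p i).re) = p := by
      funext i; simp [cpt]
    rw [if_neg h2, h3, jacC_cpt]
  have h4 : ∑ z ∈ Zl, (if lpt z 0 = 0 then - E (lpt z 1) else
      (w (fun i => (lpt z i).re) : ℂ)) ^ 2 * jacC (X 0 * A) Q (lpt z) =
      - ((lam : ℂ) * ∑ z ∈ Zl, (E z * aeval (lpt z) A) ^ 2) := by
    rw [Finset.mul_sum, ← Finset.sum_neg_distrib]
    apply Finset.sum_congr rfl
    intro z _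
    have h5 : lpt z 0 = 0 := by simp [lpt]
    have h6 : lpt z 1 = z := by simp [lpt]
    rw [if_pos h5, h6]
    have h7 : aeval (lpt z) (pderiv 1 Q) = -((lam : ℂ) * aeval (lpt z) A) := by
      rw [hrel, map_sub, map_neg, map_mul, map_mul, aeval_X, h5, aeval_C]
      simp
    have h8 : aeval (lpt z) (pderiv 0 (X 0 * A)) = aeval (lpt z) A := by
      rw [Derivation.leibniz, pderiv_X_self, smul_eq_mul, smul_eq_mul, mul_one, map_add, map_mul,
        aeval_X, h5, zero_mul, zero_add]
    have h9 : aeval (lpt z) (pderiv 1 (X 0 * A)) = 0 := by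
      rw [Derivation.leibniz, pderiv_X_of_ne (by decide), smul_zero, add_zero, smul_eq_mul,
        map_mul, aeval_X, h5, zero_mul]
    rw [jacC, h7, h8, h9]
    ring
  rw [h1, h4] at h
  linear_combination h

/-- On an invariant line with `λ < 0` there is no maximal set of centres. -/
theorem line_neg {A Q : MvPolynomial (Fin 2) ℝ} {n : ℕ} (hn : 3 ≤ n) (lam : ℝ) (hlam : lam < 0)
    (hA : A.totalDegree ≤ n - 1) (hQ : Q.totalDegree ≤ n)
    (hrel : pderiv 1 Q = -(C lam * A) - X 0 * pderiv 0 A)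
    (hcoef : coeff (Finsupp.single 1 (n - 1)) A ≠ 0) (S : Finset (Fin 2 → ℝ))
    (hS : ∀ p ∈ S, p 0 ≠ 0 ∧ eval p A = 0 ∧ eval p Q = 0 ∧ 0 < jac (X 0 * A) Q p)
    (hcard : S.card + 1 = n * (n + 1) / 2) : False := by
  classical
  have hn1 : 1 ≤ n := by omega
  have hP : (X 0 * A : MvPolynomial (Fin 2) ℝ).totalDegree ≤ n := by
    refine (totalDegree_mul _ _).trans ?_
    rw [totalDegree_X]
    omega
  have hS3 : ∀ p ∈ S, p 0 ≠ 0 ∧ eval p A = 0 ∧ eval p Q = 0 := fun p hp =>
    ⟨(hS p hp).1, (hS p hp).2.1, (hS p hp).2.2.1⟩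
  have hSP : ∀ p ∈ S, eval p (X 0 * A) = 0 ∧ eval p Q = 0 ∧ 0 < jac (X 0 * A) Q p := fun p hp =>
    ⟨by rw [map_mul, (hS p hp).2.1, mul_zero], (hS p hp).2.2.1, (hS p hp).2.2.2⟩
  have hA0 : A ≠ 0 := by
    rintro rfl
    exact hcoef (coeff_zero _)
  have hAS : ∀ p ∈ S, eval p A = 0 := fun p hp => (hS p hp).2.1
  -- the polynomial on the line
  have hder : Polynomial.derivative (ln Q) = -(Polynomial.C lam * ln A) := by
    rw [ln_derivative, hrel]
    simp [ln]
  have hqn : 3 ≤ (ln Q).natDegree := by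
    have h1 : (Polynomial.derivative (ln Q)).coeff (n - 1) ≠ 0 := by
      rw [hder, Polynomial.coeff_neg, Polynomial.coeff_C_mul, ln_coeff]
      exact neg_ne_zero.mpr (mul_ne_zero hlam.ne hcoef)
    rw [Polynomial.coeff_derivative] at h1
    have h2 : (ln Q).coeff (n - 1 + 1) ≠ 0 := left_ne_zero_of_mul h1
    have h3 := Polynomial.le_natDegree_of_ne_zero h2
    omega
  have hQz : ∀ z : ℂ, Polynomial.aeval z (ln Q) = 0 → aeval (lpt z) Q = 0 := fun z hz => by
    rw [aeval_lpt, hz]
  have hconjf : ∀ (z : ℂ) (f : MvPolynomial (Fin 2) ℝ),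
      aeval (lpt ((starRingEnd ℂ) z)) f = (starRingEnd ℂ) (aeval (lpt z) f) := by
    intro z f
    rw [aeval_lpt, aeval_lpt, Polynomial.aeval_conj]
  have hder' : ∀ z : ℂ, Polynomial.aeval z (Polynomial.derivative (ln Q)) =
      -((lam : ℂ) * aeval (lpt z) A) := by
    intro z
    rw [hder, aeval_lpt]
    simp
  have hlam' : (lam : ℂ) ≠ 0 := by exact_mod_cast hlam.ne
  by_cases hmul : ∃ z : ℂ, Polynomial.aeval z (ln Q) = 0 ∧
      Polynomial.aeval z (Polynomial.derivative (ln Q)) = 0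
  · obtain ⟨z, hz0, hz1⟩ := hmul
    have hαz : aeval (lpt z) A = 0 := by
      rw [hder'] at hz1
      exact (mul_eq_zero.mp (neg_eq_zero.mp hz1)).resolve_left hlam'
    let v : MvPolynomial (Fin 2) ℝ →ₗ[ℝ] ℝ := Complex.reLm ∘ₗ (aeval (lpt z)).toLinearMap
    have hvf : ∀ f, v f = (aeval (lpt z) f).re := fun f => rfl
    obtain ⟨w, hw⟩ := exists_weight hn1 hP hQ S hSP hA0 hA hAS hcard v (by
      rw [hvf, hαz, Complex.zero_re])
    set cz : ℂ := (starRingEnd ℂ) z with hcz
    have hsum : ∀ g : ℂ → ℂ, ∑ y ∈ ({z, cz} : Finset ℂ),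
        (((if y = z then (1 / 2 : ℂ) else 0) + (if y = cz then (1 / 2 : ℂ) else 0)) * g y) =
        (g z + g cz) / 2 := by
      intro g
      have h1 : ∀ y ∈ ({z, cz} : Finset ℂ),
          (((if y = z then (1 / 2 : ℂ) else 0) + (if y = cz then (1 / 2 : ℂ) else 0)) * g y) =
          (if y = z then g y / 2 else 0) + (if y = cz then g y / 2 else 0) := by
        intro y _
        split_ifs <;> ring
      rw [Finset.sum_congr rfl h1, Finset.sum_add_distrib, Finset.sum_ite_eq', Finset.sum_ite_eq',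
        if_pos (by simp), if_pos (by simp)]
      ring
    have hquad := line_quad hn1 lam hA hQ hrel S hS3 w {z, cz} (by
      intro y hy
      rw [mem_insert, mem_singleton] at hy
      rcases hy with rfl | rfl
      · exact hQz _ hz0
      · rw [hconjf, hQz _ hz0, map_zero])
      (fun y => (if y = z then (1 / 2 : ℂ) else 0) + (if y = cz then (1 / 2 : ℂ) else 0)) (by
      intro f hf
      rw [hw f hf, hsum (fun y => aeval (lpt y) f), hvf, hconjf, Complex.add_conj]
      push_cast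
      ring)
    have hz' : ∑ y ∈ ({z, cz} : Finset ℂ),
        (((if y = z then (1 / 2 : ℂ) else 0) + (if y = cz then (1 / 2 : ℂ) else 0)) *
          aeval (lpt y) A) ^ 2 = 0 := by
      apply Finset.sum_eq_zero
      intro y hy
      rw [mem_insert, mem_singleton] at hy
      have : aeval (lpt y) A = 0 := by
        rcases hy with rfl | rfl
        · exact hαz
        · rw [hconjf, hαz, map_zero]
      rw [this, mul_zero]
      ring
    rw [hz', mul_zero, sub_zero] at hquad
    have hreal : ∑ p ∈ S, w p ^ 2 * jac (X 0 * A) Q p = 0 := by exact_mod_cast hquad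
    rw [Finset.sum_eq_zero_iff_of_nonneg
      (fun p hp => mul_nonneg (sq_nonneg _) (hS p hp).2.2.2.le)] at hreal
    have hw0 : ∀ p ∈ S, w p = 0 := by
      intro p hp
      rcases mul_eq_zero.mp (hreal p hp) with h3 | h3
      · exact pow_eq_zero_iff (two_ne_zero) |>.mp h3
      · exact absurd h3 (hS p hp).2.2.2.ne'
    have h1 := hw 1 (by rw [totalDegree_one]; exact Nat.zero_le _)
    rw [Finset.sum_eq_zero (fun p hp => by rw [hw0 p hp, zero_mul]), hvf, map_one,
      Complex.one_re] at h1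
    exact zero_ne_one h1
  · obtain ⟨z1, z2, hz1, hz2, h21, h21c⟩ := (root_choice (ln Q) hqn).resolve_left hmul
    have hα : ∀ z : ℂ, Polynomial.aeval z (ln Q) = 0 → aeval (lpt z) A ≠ 0 := by
      intro z hz h0
      apply hmul
      refine ⟨z, hz, ?_⟩
      rw [hder', h0, mul_zero, neg_zero]
    set α1 : ℂ := aeval (lpt z1) A with hα1
    set α2 : ℂ := aeval (lpt z2) A with hα2
    have hα1n : α1 ≠ 0 := hα z1 hz1
    have hα2n : α2 ≠ 0 := hα z2 hz2
    let v : MvPolynomial (Fin 2) ℝ →ₗ[ℝ] ℝ :=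
      Complex.reLm ∘ₗ ((LinearMap.mulLeft ℝ (α1⁻¹)) ∘ₗ (aeval (lpt z1)).toLinearMap -
        (LinearMap.mulLeft ℝ (α2⁻¹)) ∘ₗ (aeval (lpt z2)).toLinearMap)
    have hvf : ∀ f, v f = (α1⁻¹ * aeval (lpt z1) f - α2⁻¹ * aeval (lpt z2) f).re := fun f => rfl
    obtain ⟨w, hw⟩ := exists_weight hn1 hP hQ S hSP hA0 hA hAS hcard v (by
      rw [hvf, ← hα1, ← hα2, inv_mul_cancel₀ hα1n, inv_mul_cancel₀ hα2n, sub_self,
        Complex.zero_re])
    set c1 : ℂ := (starRingEnd ℂ) z1 with hc1
    set c2 : ℂ := (starRingEnd ℂ) z2 with hc2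
    let er : ℂ → ℝ := fun y => ((if y = z1 then 1 else 0) + (if y = c1 then 1 else 0) -
      (if y = z2 then 1 else 0) - (if y = c2 then 1 else 0)) / 2
    let Zl : Finset ℂ := {z1, c1, z2, c2}
    have hZroot : ∀ z ∈ Zl, aeval (lpt z) Q = 0 ∧ aeval (lpt z) A ≠ 0 := by
      intro z hz
      have hz' : z = z1 ∨ z = c1 ∨ z = z2 ∨ z = c2 := by
        simpa [Zl] using hz
      rcases hz' with rfl | rfl | rfl | rfl
      · exact ⟨hQz _ hz1, hα1n⟩
      · refine ⟨by rw [hconjf, hQz _ hz1, map_zero], ?_⟩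
        rw [hconjf]
        exact (map_ne_zero _).mpr hα1n
      · exact ⟨hQz _ hz2, hα2n⟩
      · refine ⟨by rw [hconjf, hQz _ hz2, map_zero], ?_⟩
        rw [hconjf]
        exact (map_ne_zero _).mpr hα2n
    have hsum : ∀ g : ℂ → ℂ, ∑ y ∈ Zl, ((er y : ℝ) : ℂ) * g y =
        (g z1 + g c1 - g z2 - g c2) / 2 := by
      intro g
      have h1 : ∀ y ∈ Zl, ((er y : ℝ) : ℂ) * g y =
          (if y = z1 then g y / 2 else 0) + (if y = c1 then g y / 2 else 0) -
          (if y = z2 then g y / 2 else 0) - (if y = c2 then g y / 2 else 0) := by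
        intro y _
        simp only [er]
        split_ifs <;> push_cast <;> ring
      rw [Finset.sum_congr rfl h1, Finset.sum_sub_distrib, Finset.sum_sub_distrib,
        Finset.sum_add_distrib, Finset.sum_ite_eq', Finset.sum_ite_eq', Finset.sum_ite_eq',
        Finset.sum_ite_eq', if_pos (by simp [Zl]), if_pos (by simp [Zl]), if_pos (by simp [Zl]),
        if_pos (by simp [Zl])]
      ring
    have hquad := line_quad hn1 lam hA hQ hrel S hS3 w Zl (fun z hz => (hZroot z hz).1)
      (fun y => ((er y : ℝ) : ℂ) * (aeval (lpt y) A)⁻¹) (by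
      intro f hf
      have h2 : ∀ y, ((er y : ℝ) : ℂ) * (aeval (lpt y) A)⁻¹ * aeval (lpt y) f =
          ((er y : ℝ) : ℂ) * ((aeval (lpt y) A)⁻¹ * aeval (lpt y) f) := fun y => by ring
      simp only [h2]
      rw [hw f hf, hsum (fun y => (aeval (lpt y) A)⁻¹ * aeval (lpt y) f), hvf, hconjf, hconjf,
        hconjf, hconjf, ← hα1, ← hα2]
      have e1 : ((starRingEnd ℂ) α1)⁻¹ * (starRingEnd ℂ) (aeval (lpt z1) f) =
          (starRingEnd ℂ) (α1⁻¹ * aeval (lpt z1) f) := by rw [map_mul, map_inv₀]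
      have e2 : ((starRingEnd ℂ) α2)⁻¹ * (starRingEnd ℂ) (aeval (lpt z2) f) =
          (starRingEnd ℂ) (α2⁻¹ * aeval (lpt z2) f) := by rw [map_mul, map_inv₀]
      rw [e1, e2]
      have h3 : ∀ a b : ℂ, (a + (starRingEnd ℂ) a - b - (starRingEnd ℂ) b) / 2 =
          (((a - b).re : ℝ) : ℂ) := by
        intro a b
        have e1 := Complex.add_conj a
        have e2 := Complex.add_conj b
        rw [Complex.sub_re]
        push_cast at *
        linear_combination e1 / 2 - e2 / 2
      rw [h3])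
    have h5 : ∑ z ∈ Zl, (((er z : ℝ) : ℂ) * (aeval (lpt z) A)⁻¹ * aeval (lpt z) A) ^ 2 =
        ((∑ z ∈ Zl, er z ^ 2 : ℝ) : ℂ) := by
      push_cast
      apply Finset.sum_congr rfl
      intro z hz
      rw [mul_assoc, inv_mul_cancel₀ (hZroot z hz).2, mul_one]
    rw [h5] at hquad
    have hreal : ∑ p ∈ S, w p ^ 2 * jac (X 0 * A) Q p - lam * ∑ z ∈ Zl, er z ^ 2 = 0 := by
      exact_mod_cast hquad
    have hpos1 : 0 ≤ ∑ p ∈ S, w p ^ 2 * jac (X 0 * A) Q p :=
      Finset.sum_nonneg fun p hp => mul_nonneg (sq_nonneg _) (hS p hp).2.2.2.le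
    have hz1c2 : z1 ≠ c2 := by
      intro h
      apply h21c
      rw [hc1, h, hc2, Complex.conj_conj]
    have her1 : 0 < er z1 := by
      simp only [er, if_neg (Ne.symm h21), if_neg hz1c2, if_true]
      split_ifs <;> norm_num
    have hpos2 : 0 < ∑ z ∈ Zl, er z ^ 2 :=
      Finset.sum_pos' (fun z _ => sq_nonneg _) ⟨z1, by simp [Zl], by positivity⟩
    nlinarith

end Pool.Agent.PlanarCentres
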