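import Pool.Agent.PlanarCentres.Curve

/-!
# The projective change of coordinates `(x, y) ↦ (1/x, y/x)`
-/

namespace Pool.Agent.PlanarCentres

open MvPolynomial Finset

/-- A linear statement about polynomials of degree at most `k` follows from monomials. -/
theorem ind_deg {k : ℕ} {P : MvPolynomial (Fin 2) ℝ → Prop} (h0 : P 0)
    (hadd : ∀ f g, P f → P g → P (f + g))
    (hmon : ∀ (s : Fin 2 →₀ ℕ) (c : ℝ), s 0 + s 1 ≤ k → P (monomial s c))
    (f : MvPolynomial (Fin 2) ℝ) (hf : f.totalDegree ≤ k) : P f := by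
  rw [f.as_sum]
  refine Finset.sum_induction _ P (fun a b => hadd a b) h0 fun s hs => hmon s _ ?_
  have h1 := le_totalDegree hs
  have h2 : s.sum (fun _ e => e) = s 0 + s 1 := by
    rw [Finsupp.sum_fintype s (fun _ e => e) (fun _ => rfl), Fin.sum_univ_two]
  rw [h2] at h1
  exact h1.trans hf

theorem deg_mon (s : Fin 2 →₀ ℕ) (c : ℝ) :
    (monomial s c : MvPolynomial (Fin 2) ℝ).totalDegree ≤ s 0 + s 1 := by
  refine (totalDegree_monomial_le s c).trans (le_of_eq ?_)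
  have := Finsupp.sum_fintype s (fun _ e => e) (fun _ => rfl)
  rw [Fin.sum_univ_two] at this
  exact this

/-- Homogenisation of degree `k`, dehomogenised with respect to `x`. -/
noncomputable def homk (k : ℕ) : MvPolynomial (Fin 2) ℝ →ₗ[ℝ] MvPolynomial (Fin 2) ℝ :=
  (basisMonomials (Fin 2) ℝ).constr ℝ fun s => X 0 ^ (k - s 0 - s 1) * X 1 ^ s 1

theorem homk_mon (k : ℕ) (s : Fin 2 →₀ ℕ) (c : ℝ) :
    homk k (monomial s c) = C c * (X 0 ^ (k - s 0 - s 1) * X 1 ^ s 1) := by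
  have h1 : (monomial s c : MvPolynomial (Fin 2) ℝ) = c • basisMonomials (Fin 2) ℝ s := by
    rw [coe_basisMonomials, smul_monomial, smul_eq_mul, mul_one]
  rw [h1, map_smul, homk, Module.Basis.constr_basis, smul_eq_C_mul]

theorem mon_eq (s : Fin 2 →₀ ℕ) (c : ℝ) :
    (monomial s c : MvPolynomial (Fin 2) ℝ) = C c * (X 0 ^ s 0 * X 1 ^ s 1) := by
  rw [monomial_eq, Finsupp.prod_fintype s _ (fun _ => pow_zero _), Fin.prod_univ_two]

theorem ev_homk {k : ℕ} {x : ℝ} (hx : x ≠ 0) (y : ℝ) (f : MvPolynomial (Fin 2) ℝ)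
    (hf : f.totalDegree ≤ k) :
    eval ![x⁻¹, x⁻¹ * y] (homk k f) = x⁻¹ ^ k * eval ![x, y] f := by
  refine ind_deg (P := fun f => eval ![x⁻¹, x⁻¹ * y] (homk k f) = x⁻¹ ^ k * eval ![x, y] f)
    (by simp) (fun f g h h' => by rw [map_add, map_add, h, h', map_add]; ring) ?_ f hf
  intro s c hs
  obtain ⟨j, rfl⟩ := Nat.exists_eq_add_of_le hs
  rw [homk_mon, mon_eq, show s 0 + s 1 + j - s 0 - s 1 = j by omega]
  simp only [map_mul, map_pow, eval_C, eval_X, Matrix.cons_val_zero, Matrix.cons_val_one]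
  rw [pow_add, pow_add, mul_pow]
  have h1 : x⁻¹ ^ s 0 * x ^ s 0 = 1 := by rw [← mul_pow, inv_mul_cancel₀ hx, one_pow]
  linear_combination (-(c * x⁻¹ ^ j * x⁻¹ ^ s 1 * y ^ s 1)) * h1

theorem pderiv0_mon (s : Fin 2 →₀ ℕ) (c : ℝ) :
    X 0 * pderiv 0 (monomial s c : MvPolynomial (Fin 2) ℝ) = monomial s (c * s 0) := by
  rw [mon_eq, mon_eq]
  simp only [Derivation.leibniz, pderiv_C, Derivation.leibniz_pow, pderiv_X_self,
    pderiv_X_of_ne (show (1 : Fin 2) ≠ 0 by decide), smul_eq_mul, mul_zero, add_zero, mul_one,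
    smul_zero, zero_add, nsmul_eq_mul, C_mul]
  rcases Nat.eq_zero_or_pos (s 0) with h | h
  · rw [h]; simp
  · obtain ⟨j, hj⟩ := Nat.exists_eq_add_of_le h
    rw [hj, show 1 + j - 1 = j by omega, map_natCast, pow_add]
    ring

/-- The derivative with respect to `y`. -/
theorem pderiv1_homk {k : ℕ} (f : MvPolynomial (Fin 2) ℝ) (hf : f.totalDegree ≤ k + 1) :
    pderiv 1 (homk (k + 1) f) = homk k (pderiv 1 f) := by
  refine ind_deg (P := fun f => pderiv 1 (homk (k + 1) f) = homk k (pderiv 1 f))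
    (by simp) (fun f g h h' => by rw [map_add, map_add, h, h', map_add, map_add]) ?_ f hf
  intro s c hs
  rw [homk_mon, pderiv_monomial, homk_mon]
  simp only [Derivation.leibniz, pderiv_C, Derivation.leibniz_pow, pderiv_X_self,
    pderiv_X_of_ne (show (0 : Fin 2) ≠ 1 by decide), smul_eq_mul, mul_zero, add_zero, mul_one,
    smul_zero, nsmul_eq_mul, C_mul]
  rcases Nat.eq_zero_or_pos (s 1) with h | h
  · simp [h]
  · obtain ⟨j, hj⟩ := Nat.exists_eq_add_of_le h
    have e1 : (s - Finsupp.single 1 1 : Fin 2 →₀ ℕ) 0 = s 0 := by simp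
    have e2 : (s - Finsupp.single 1 1 : Fin 2 →₀ ℕ) 1 = j := by simp [hj]
    rw [e1, e2, hj, show 1 + j - 1 = j by omega, map_natCast,
      show k + 1 - s 0 - (1 + j) = k - s 0 - j by omega]
    ring

/-- The derivative with respect to `x`. -/
theorem pderiv0_homk {k : ℕ} (f : MvPolynomial (Fin 2) ℝ) (hf : f.totalDegree ≤ k) :
    homk k (X 0 * pderiv 0 f) = C (k : ℝ) * homk k f - X 0 * pderiv 0 (homk k f) -
      X 1 * pderiv 1 (homk k f) := by
  refine ind_deg (P := fun f => homk k (X 0 * pderiv 0 f) = C (k : ℝ) * homk k f -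
      X 0 * pderiv 0 (homk k f) - X 1 * pderiv 1 (homk k f))
    (by simp) (fun f g h h' => by simp only [map_add, mul_add] at h h' ⊢; rw [h, h']; ring)
    ?_ f hf
  intro s c hs
  obtain ⟨j, rfl⟩ := Nat.exists_eq_add_of_le hs
  rw [pderiv0_mon, homk_mon, homk_mon, show s 0 + s 1 + j - s 0 - s 1 = j by omega]
  have a0 : X 0 * pderiv 0 (C c * (X 0 ^ j * X 1 ^ s 1) : MvPolynomial (Fin 2) ℝ) =
      C (j : ℝ) * (C c * (X 0 ^ j * X 1 ^ s 1)) := by
    simp only [Derivation.leibniz, pderiv_C, Derivation.leibniz_pow, pderiv_X_self,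
      pderiv_X_of_ne (show (1 : Fin 2) ≠ 0 by decide), smul_eq_mul, mul_zero, add_zero, mul_one,
      smul_zero, zero_add, nsmul_eq_mul]
    rcases Nat.eq_zero_or_pos j with h | h
    · rw [h]; simp
    · obtain ⟨i, rfl⟩ := Nat.exists_eq_add_of_le h
      rw [show 1 + i - 1 = i by omega, map_natCast, pow_add]
      ring
  have a1 : X 1 * pderiv 1 (C c * (X 0 ^ j * X 1 ^ s 1) : MvPolynomial (Fin 2) ℝ) =
      C (s 1 : ℝ) * (C c * (X 0 ^ j * X 1 ^ s 1)) := by
    simp only [Derivation.leibniz, pderiv_C, Derivation.leibniz_pow, pderiv_X_self,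
      pderiv_X_of_ne (show (0 : Fin 2) ≠ 1 by decide), smul_eq_mul, mul_zero, add_zero, mul_one,
      smul_zero, nsmul_eq_mul]
    rcases Nat.eq_zero_or_pos (s 1) with h | h
    · rw [h]; simp
    · obtain ⟨i, hi⟩ := Nat.exists_eq_add_of_le h
      rw [hi, show 1 + i - 1 = i by omega, map_natCast, pow_add]
      ring
  rw [a0, a1]
  simp only [C_mul, map_natCast, Nat.cast_add, C_add]
  ring

theorem deg_homk {k : ℕ} (f : MvPolynomial (Fin 2) ℝ) (hf : f.totalDegree ≤ k) :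
    (homk k f).totalDegree ≤ k := by
  refine ind_deg (P := fun f => (homk k f).totalDegree ≤ k)
    (by simp) (fun f g h h' => by rw [map_add]; exact (totalDegree_add _ _).trans (max_le h h'))
    ?_ f hf
  intro s c hs
  rw [homk_mon]
  refine (totalDegree_mul _ _).trans ?_
  rw [totalDegree_C, zero_add]
  refine (totalDegree_mul _ _).trans ?_
  rw [totalDegree_X_pow, totalDegree_X_pow]
  omega

theorem coeff_homk {k : ℕ} (f : MvPolynomial (Fin 2) ℝ) (hf : f.totalDegree ≤ k) :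
    coeff (Finsupp.single 1 k) (homk k f) = coeff (Finsupp.single 1 k) f := by
  refine ind_deg (P := fun f => coeff (Finsupp.single 1 k) (homk k f) =
      coeff (Finsupp.single 1 k) f)
    (by simp) (fun f g h h' => by rw [map_add, coeff_add, coeff_add, h, h']) ?_ f hf
  intro s c hs
  have h1 : (C c * (X 0 ^ (k - s 0 - s 1) * X 1 ^ s 1) : MvPolynomial (Fin 2) ℝ) =
      monomial (Finsupp.single 0 (k - s 0 - s 1) + Finsupp.single 1 (s 1)) c := by
    rw [mon_eq]; simp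
  rw [homk_mon, h1, coeff_monomial, coeff_monomial]
  congr 1
  apply propext
  constructor
  · intro h
    have e0 := DFunLike.congr_fun h 0
    have e1 := DFunLike.congr_fun h 1
    simp at e0 e1
    ext i
    fin_cases i
    · simp; omega
    · simp; omega
  · intro h
    rw [h]
    ext i
    fin_cases i
    · simp
    · simp

/-- Values of the derivatives. -/
theorem ev_pderiv1 {k : ℕ} {x : ℝ} (hx : x ≠ 0) (y : ℝ) (f : MvPolynomial (Fin 2) ℝ)
    (hf : f.totalDegree ≤ k + 1) :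
    eval ![x⁻¹, x⁻¹ * y] (pderiv 1 (homk (k + 1) f)) = x⁻¹ ^ k * eval ![x, y] (pderiv 1 f) := by
  refine ind_deg (P := fun f => eval ![x⁻¹, x⁻¹ * y] (pderiv 1 (homk (k + 1) f)) =
      x⁻¹ ^ k * eval ![x, y] (pderiv 1 f))
    (by simp) (fun f g h h' => by simp only [map_add] at h h' ⊢; rw [h, h']; ring) ?_ f hf
  intro s c hs
  have hm : (monomial s c : MvPolynomial (Fin 2) ℝ).totalDegree ≤ k + 1 :=
    (deg_mon s c).trans hs
  rw [pderiv1_homk _ hm]
  rcases Nat.eq_zero_or_pos (s 1) with h | h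
  · rw [pderiv_monomial]; simp [h]
  · refine ev_homk hx y _ ?_
    rw [pderiv_monomial]
    refine (deg_mon _ _).trans ?_
    simp
    omega

theorem ev_pderiv0 {k : ℕ} {x : ℝ} (hx : x ≠ 0) (y : ℝ) (f : MvPolynomial (Fin 2) ℝ)
    (hf : f.totalDegree ≤ k + 1) (h0 : eval ![x, y] f = 0) :
    x⁻¹ * eval ![x⁻¹, x⁻¹ * y] (pderiv 0 (homk (k + 1) f)) =
      -(x⁻¹ ^ (k + 1) * (y * eval ![x, y] (pderiv 1 f) + x * eval ![x, y] (pderiv 0 f))) := by
  have h1 := congrArg (eval ![x⁻¹, x⁻¹ * y]) (pderiv0_homk f hf)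
  simp only [map_sub, map_mul, eval_C, eval_X, Matrix.cons_val_zero, Matrix.cons_val_one] at h1
  rw [ev_homk hx y f hf, h0, ev_pderiv1 hx y f hf] at h1
  have h2 : eval ![x⁻¹, x⁻¹ * y] (homk (k + 1) (X 0 * pderiv 0 f)) =
      x⁻¹ ^ (k + 1) * (x * eval ![x, y] (pderiv 0 f)) := by
    refine ind_deg (P := fun f => eval ![x⁻¹, x⁻¹ * y] (homk (k + 1) (X 0 * pderiv 0 f)) =
      x⁻¹ ^ (k + 1) * (x * eval ![x, y] (pderiv 0 f))) (by simp)
      (fun f g h h' => by simp only [map_add, mul_add] at h h' ⊢; rw [h, h']) ?_ f hf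
    intro s c hs
    have h3 := congrArg (eval ![x, y]) (pderiv0_mon s c)
    simp only [map_mul, eval_X, Matrix.cons_val_zero] at h3
    rw [h3, pderiv0_mon]
    exact ev_homk hx y _ ((deg_mon s _).trans hs)
  rw [h2] at h1
  rw [pow_succ] at h1 ⊢
  linear_combination h1

/-- **The projective change of coordinates.**  Let `X = (x A, Q)` have degree at most `n` with
`Q_y = -λ A - x A_x`, and let `S` be a finite set of zeros off the line `x = 0` with positive
Jacobian.  The projective change of coordinates `(x, y) ↦ (1/x, y/x)` gives a system of the same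
kind with `λ' = -(λ + n)`. -/
theorem proj_swap {A Q : MvPolynomial (Fin 2) ℝ} {n : ℕ} (hn : 2 ≤ n) (lam : ℝ)
    (hA : A.totalDegree ≤ n - 1) (hQ : Q.totalDegree ≤ n)
    (hrel : pderiv 1 Q = -(C lam * A) - X 0 * pderiv 0 A)
    (S : Finset (Fin 2 → ℝ))
    (hS : ∀ p ∈ S, p 0 ≠ 0 ∧ eval p A = 0 ∧ eval p Q = 0 ∧ 0 < jac (X 0 * A) Q p) :
    ∃ (A' Q' : MvPolynomial (Fin 2) ℝ) (S' : Finset (Fin 2 → ℝ)),
      A'.totalDegree ≤ n - 1 ∧ Q'.totalDegree ≤ n ∧
      pderiv 1 Q' = -(C (-(lam + n)) * A') - X 0 * pderiv 0 A' ∧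
      coeff (Finsupp.single 1 (n - 1)) A' = - coeff (Finsupp.single 1 (n - 1)) A ∧
      S'.card = S.card ∧
      ∀ p ∈ S', p 0 ≠ 0 ∧ eval p A' = 0 ∧ eval p Q' = 0 ∧ 0 < jac (X 0 * A') Q' p := by
  classical
  obtain ⟨m, rfl⟩ : ∃ m, n = m + 2 := ⟨n - 2, by omega⟩
  rw [show m + 2 - 1 = m + 1 by omega] at hA ⊢
  refine ⟨-homk (m + 1) A, homk (m + 2) Q - X 1 * homk (m + 1) A,
    S.image fun p => ![(p 0)⁻¹, (p 0)⁻¹ * p 1], ?_, ?_, ?_, ?_, ?_, ?_⟩
  · rw [totalDegree_neg]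
    exact deg_homk A hA
  · refine (totalDegree_sub _ _).trans (max_le (deg_homk Q hQ) ?_)
    refine (totalDegree_mul _ _).trans ?_
    have := deg_homk A hA
    rw [totalDegree_X]
    omega
  · have h1 := pderiv1_homk (k := m + 1) Q hQ
    rw [hrel, map_sub, map_neg, ← smul_eq_C_mul, map_smul, pderiv0_homk A hA,
      smul_eq_C_mul] at h1
    rw [map_sub, h1, Derivation.leibniz, pderiv_X_self, smul_eq_mul, smul_eq_mul]
    push_cast
    simp only [C_add, map_neg, map_natCast, map_one]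
    have h2 : (C (2 : ℝ) : MvPolynomial (Fin 2) ℝ) = 2 := map_ofNat _ 2
    rw [h2]
    ring
  · rw [coeff_neg, coeff_homk A hA]
  · refine Finset.card_image_of_injOn fun p hp q hq h => ?_
    have h0 : (p 0)⁻¹ = (q 0)⁻¹ := congrFun h 0
    have h1 : (p 0)⁻¹ * p 1 = (q 0)⁻¹ * q 1 := congrFun h 1
    rw [h0] at h1
    have hq0 := (hS q hq).1
    ext i
    fin_cases i
    · exact inv_injective h0
    · exact mul_left_cancel₀ (inv_ne_zero hq0) h1
  · intro p' hp'
    obtain ⟨p, hp, rfl⟩ := Finset.mem_image.1 hp'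
    obtain ⟨hx, hpA, hpQ, hj⟩ := hS p hp
    obtain ⟨x, hxe⟩ : ∃ x, p 0 = x := ⟨_, rfl⟩
    obtain ⟨y, hye⟩ : ∃ y, p 1 = y := ⟨_, rfl⟩
    have hpe : p = ![x, y] := by
      ext i
      fin_cases i
      · exact hxe
      · exact hye
    rw [hxe] at hx
    rw [hxe, hye]
    rw [hpe] at hpA hpQ hj
    have eA : eval ![x⁻¹, x⁻¹ * y] (homk (m + 1) A) = 0 := by
      rw [ev_homk hx y A hA, hpA, mul_zero]
    have eQ : eval ![x⁻¹, x⁻¹ * y] (homk (m + 2) Q) = 0 := by
      rw [ev_homk hx y Q hQ, hpQ, mul_zero]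
    refine ⟨inv_ne_zero hx, by rw [map_neg, eA, neg_zero], by rw [map_sub, map_mul, eA, eQ]; ring,
      ?_⟩
    have a1 := ev_pderiv1 (k := m) hx y A hA
    have a0 := ev_pderiv0 (k := m) hx y A hA hpA
    have q1 := ev_pderiv1 (k := m + 1) hx y Q hQ
    have q0 := ev_pderiv0 (k := m + 1) hx y Q hQ hpQ
    have hj' : jac (X 0 * -homk (m + 1) A) (homk (m + 2) Q - X 1 * homk (m + 1) A)
        ![x⁻¹, x⁻¹ * y] = x⁻¹ ^ (2 * (m + 1)) * jac (X 0 * A) Q ![x, y] := by
      simp only [jac, Derivation.leibniz, map_sub, map_neg, pderiv_X_self,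
        pderiv_X_of_ne (show (1 : Fin 2) ≠ 0 by decide),
        pderiv_X_of_ne (show (0 : Fin 2) ≠ 1 by decide), smul_eq_mul, mul_zero, mul_one, add_zero,
        map_add, map_mul, eval_X, Matrix.cons_val_zero, Matrix.cons_val_one, eA, hpA, neg_zero]
      rw [show m + 1 + 1 = m + 2 from rfl] at q1 q0
      linear_combination (-(eval ![x⁻¹, x⁻¹ * y]) (pderiv 1 (homk (m + 2) Q))) * a0 +
        (x⁻¹ ^ (m + 1) * (y * eval ![x, y] (pderiv 1 A) + x * eval ![x, y] (pderiv 0 A))) * q1 +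
        (x⁻¹ * eval ![x⁻¹, x⁻¹ * y] (pderiv 0 (homk (m + 2) Q))) * a1 +
        (x⁻¹ ^ m * eval ![x, y] (pderiv 1 A)) * q0
    rw [hj']
    refine mul_pos ?_ hj
    rw [pow_mul]
    exact pow_pos (by positivity) _

end Pool.Agent.PlanarCentres
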