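import Mathlib

/-!
# From finite subsets to `Set.encard`
-/

namespace Pool.Agent.PlanarCentres

/-- If all finite subsets of `S` have at most `N` elements then `S` has at most `N` elements. -/
theorem encard_le_of_finset {α : Type*} {S : Set α} {N : ℕ}
    (h : ∀ F : Finset α, (∀ x ∈ F, x ∈ S) → F.card ≤ N) : S.encard ≤ (N : ℕ∞) := by
  by_contra hcon
  push Not at hcon
  have h1 : ((N + 1 : ℕ) : ℕ∞) ≤ S.encard := by
    have := Order.add_one_le_of_lt hcon
    exact_mod_cast this
  obtain ⟨t, ht, hc⟩ := Set.exists_subset_encard_eq h1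
  have hfin : t.Finite := Set.finite_of_encard_eq_coe hc
  have h2 := h hfin.toFinset (fun x hx => ht (hfin.mem_toFinset.mp hx))
  rw [hfin.encard_eq_coe_toFinset_card] at hc
  have h3 : hfin.toFinset.card = N + 1 := by exact_mod_cast hc
  omega

end Pool.Agent.PlanarCentres
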