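import Pool.Agent.PlanarCentres.Curve

/-!
# The functional top coefficient of `y^(n-1)`
-/

namespace Pool.Agent.PlanarCentres

open MvPolynomial Finset

/-- the submodule of kernels `F` with `∑ w(p) w(q) F(p,q) = 0` -/
def wker (S : Finset (Fin 2 → ℝ)) (w : (Fin 2 → ℝ) → ℝ) :
    Submodule ℝ ((Fin 2 → ℝ) → (Fin 2 → ℝ) → ℝ) where
  carrier := {F | ∑ p ∈ S, ∑ q ∈ S, w p * w q * F p q = 0}
  zero_mem' := by simp
  add_mem' := by
    intro F G h1 h2
    simp only [Set.mem_ofPred_eq] at *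
    simp only [Pi.add_apply, mul_add, Finset.sum_add_distrib, h1, h2, add_zero]
  smul_mem' := by
    intro c F h
    simp only [Set.mem_ofPred_eq] at *
    have : ∑ p ∈ S, ∑ q ∈ S, w p * w q * (c • F) p q =
        c * ∑ p ∈ S, ∑ q ∈ S, w p * w q * F p q := by
      rw [Finset.mul_sum]
      apply Finset.sum_congr rfl
      intro p _
      rw [Finset.mul_sum]
      apply Finset.sum_congr rfl
      intro q _
      simp only [Pi.smul_apply, smul_eq_mul]
      ring
    rw [this, h, mul_zero]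

/-- moments of the weight -/
def mom (S : Finset (Fin 2 → ℝ)) (w : (Fin 2 → ℝ) → ℝ) (i j : ℕ) : ℝ :=
  ∑ p ∈ S, w p * (p 0 ^ i * p 1 ^ j)

theorem wker_gen (S : Finset (Fin 2 → ℝ)) (w : (Fin 2 → ℝ) → ℝ) (i j i' j' : ℕ)
    (h : mom S w i j * mom S w i' j' = 0) :
    (fun (x u : Fin 2 → ℝ) => (x 0 ^ i * x 1 ^ j) * (u 0 ^ i' * u 1 ^ j')) ∈ wker S w := by
  change ∑ p ∈ S, ∑ q ∈ S, w p * w q * ((p 0 ^ i * p 1 ^ j) * (q 0 ^ i' * q 1 ^ j')) = 0
  rw [← h, mom, mom, Finset.sum_mul_sum]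
  apply Finset.sum_congr rfl
  intro p _
  apply Finset.sum_congr rfl
  intro q _
  ring

/-- Let `P = x A` with `A` without the monomial `y^(n-1)`.  Then no weight on a finite
set `S` of common zeros of `P, Q` with positive Jacobian can represent the functional
`f ↦ coefficient of y^(n-1)` on polynomials of degree at most `n - 1`. -/
theorem top_coef {P Q A : MvPolynomial (Fin 2) ℝ} {n : ℕ} (hn : 2 ≤ n) (hPA : P = X 0 * A)
    (hP : P.totalDegree ≤ n) (hQ : Q.totalDegree ≤ n)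
    (hcoef : coeff (Finsupp.single 1 (n - 1)) A = 0) (S : Finset (Fin 2 → ℝ))
    (hS : ∀ p ∈ S, eval p P = 0 ∧ eval p Q = 0 ∧ 0 < jac P Q p) (w : (Fin 2 → ℝ) → ℝ)
    (hw : ∀ f : MvPolynomial (Fin 2) ℝ, f.totalDegree ≤ n - 1 →
      ∑ p ∈ S, w p * eval p f = coeff (Finsupp.single 1 (n - 1)) f) : False := by
  classical
  -- moments of low degree
  have hmom : ∀ i j : ℕ, i + j ≤ n - 1 → mom S w i j = if i = 0 ∧ j = n - 1 then 1 else 0 := by
    intro i j hij
    have h1 := hw (X 0 ^ i * X 1 ^ j) (by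
      have h1 := totalDegree_mul (X 0 ^ i : MvPolynomial (Fin 2) ℝ) (X 1 ^ j)
      have h2 := totalDegree_X_pow_le 0 i
      have h3 := totalDegree_X_pow_le 1 j
      omega)
    simp only [map_mul, map_pow, eval_X] at h1
    rw [mom, h1]
    have h2 : (X 0 ^ i * X 1 ^ j : MvPolynomial (Fin 2) ℝ) =
        monomial (Finsupp.single 0 i + Finsupp.single 1 j) 1 := by
      rw [X_pow_eq_monomial, X_pow_eq_monomial, monomial_mul, one_mul]
    rw [h2, coeff_monomial]
    by_cases hc : i = 0 ∧ j = n - 1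
    · rw [if_pos hc, if_pos]
      rw [hc.1, hc.2]; simp
    · rw [if_neg hc, if_neg]
      intro h3
      apply hc
      have e0 := congrArg (fun s : Fin 2 →₀ ℕ => s 0) h3
      have e1 := congrArg (fun s : Fin 2 →₀ ℕ => s 1) h3
      simp at e0 e1
      exact ⟨e0, e1⟩
  -- support of `P`
  have hPs : ∀ s ∈ P.support, 1 ≤ s 0 ∧ ¬ (s 0 = 1 ∧ s 1 = n - 1) := by
    intro s hs
    rw [mem_support_iff, hPA, coeff_X_mul'] at hs
    have h0 : (0 : Fin 2) ∈ s.support := by
      by_contra hcon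
      rw [if_neg hcon] at hs
      exact hs rfl
    rw [if_pos h0] at hs
    rw [Finsupp.mem_support_iff] at h0
    refine ⟨by omega, ?_⟩
    rintro ⟨h1, h2⟩
    apply hs
    have h3 : s - Finsupp.single 0 1 = Finsupp.single 1 (n - 1) := by
      ext i
      fin_cases i
      · simp [h1]
      · simp [h2]
    rw [h3, hcoef]
  -- first product
  have hk1 : (fun (x u : Fin 2 → ℝ) => dA P x u * dB Q x u) ∈ wker S w := by
    have hex : (fun (x u : Fin 2 → ℝ) => dA P x u * dB Q x u) =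
        ∑ s ∈ P.support, ∑ t ∈ Q.support, (coeff s P * coeff t Q) •
          ∑ k ∈ range (s 0), ∑ l ∈ range (t 1), (fun (x u : Fin 2 → ℝ) =>
            (x 0 ^ k * x 1 ^ (s 1 + l)) * (u 0 ^ (s 0 - 1 - k + t 0) * u 1 ^ (t 1 - 1 - l))) := by
      funext x u
      simp only [dA, dB, Finset.sum_mul_sum, Finset.sum_apply, Pi.smul_apply, smul_eq_mul]
      apply Finset.sum_congr rfl
      intro s _
      apply Finset.sum_congr rfl
      intro t _
      rw [mA, mB]
      have : coeff s P * ((∑ k ∈ range (s 0), x 0 ^ k * u 0 ^ (s 0 - 1 - k)) * x 1 ^ s 1) *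
          (coeff t Q * (u 0 ^ t 0 * ∑ l ∈ range (t 1), x 1 ^ l * u 1 ^ (t 1 - 1 - l))) =
          coeff s P * coeff t Q * (x 1 ^ s 1 * u 0 ^ t 0 *
          ((∑ k ∈ range (s 0), x 0 ^ k * u 0 ^ (s 0 - 1 - k)) *
          (∑ l ∈ range (t 1), x 1 ^ l * u 1 ^ (t 1 - 1 - l)))) := by ring
      rw [this, Finset.sum_mul_sum, Finset.mul_sum]
      congr 1
      apply Finset.sum_congr rfl
      intro k _
      rw [Finset.mul_sum]
      apply Finset.sum_congr rfl
      intro l _
      rw [pow_add, pow_add]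
      ring
    rw [hex]
    refine Submodule.sum_mem _ fun s hs => Submodule.sum_mem _ fun t ht =>
      Submodule.smul_mem _ _ (Submodule.sum_mem _ fun k hk => Submodule.sum_mem _ fun l hl =>
        wker_gen S w _ _ _ _ ?_)
    have h1 := hPs s hs
    have h2 := deg_two hP hs
    have h3 := deg_two hQ ht
    rw [mem_range] at hk hl
    by_cases hdeg : k + (s 1 + l) ≤ n - 1
    · by_cases hc : k = 0 ∧ s 1 + l = n - 1
      · have e2 : mom S w (s 0 - 1 - k + t 0) (t 1 - 1 - l) = 0 := by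
          rw [hmom _ _ (by omega), if_neg (by omega)]
        rw [e2, mul_zero]
      · rw [hmom k (s 1 + l) hdeg, if_neg hc, zero_mul]
    · rw [hmom (s 0 - 1 - k + t 0) (t 1 - 1 - l) (by omega), if_neg (by omega), mul_zero]
  -- second product
  have hk2 : (fun (x u : Fin 2 → ℝ) => dB P x u * dA Q x u) ∈ wker S w := by
    have hex : (fun (x u : Fin 2 → ℝ) => dB P x u * dA Q x u) =
        ∑ s ∈ P.support, ∑ t ∈ Q.support, (coeff s P * coeff t Q) •
          ∑ l ∈ range (s 1), ∑ k ∈ range (t 0), (fun (x u : Fin 2 → ℝ) =>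
            (x 0 ^ k * x 1 ^ (l + t 1)) * (u 0 ^ (s 0 + (t 0 - 1 - k)) * u 1 ^ (s 1 - 1 - l))) := by
      funext x u
      simp only [dA, dB, Finset.sum_mul_sum, Finset.sum_apply, Pi.smul_apply, smul_eq_mul]
      apply Finset.sum_congr rfl
      intro s _
      apply Finset.sum_congr rfl
      intro t _
      rw [mA, mB]
      have : coeff s P * (u 0 ^ s 0 * ∑ l ∈ range (s 1), x 1 ^ l * u 1 ^ (s 1 - 1 - l)) *
          (coeff t Q * ((∑ k ∈ range (t 0), x 0 ^ k * u 0 ^ (t 0 - 1 - k)) * x 1 ^ t 1)) =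
          coeff s P * coeff t Q * (x 1 ^ t 1 * u 0 ^ s 0 *
          ((∑ l ∈ range (s 1), x 1 ^ l * u 1 ^ (s 1 - 1 - l)) *
          (∑ k ∈ range (t 0), x 0 ^ k * u 0 ^ (t 0 - 1 - k)))) := by ring
      rw [this, Finset.sum_mul_sum, Finset.mul_sum]
      congr 1
      apply Finset.sum_congr rfl
      intro l _
      rw [Finset.mul_sum]
      apply Finset.sum_congr rfl
      intro k _
      rw [pow_add, pow_add]
      ring
    rw [hex]
    refine Submodule.sum_mem _ fun s hs => Submodule.sum_mem _ fun t ht =>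
      Submodule.smul_mem _ _ (Submodule.sum_mem _ fun l hl => Submodule.sum_mem _ fun k hk =>
        wker_gen S w _ _ _ _ ?_)
    have h1 := hPs s hs
    have h2 := deg_two hP hs
    have h3 := deg_two hQ ht
    rw [mem_range] at hk hl
    by_cases hdeg : s 0 + (t 0 - 1 - k) + (s 1 - 1 - l) ≤ n - 1
    · rw [hmom (s 0 + (t 0 - 1 - k)) (s 1 - 1 - l) hdeg, if_neg (by omega), mul_zero]
    · rw [hmom k (l + t 1) (by omega), if_neg (by omega), zero_mul]
  have hk : Bez P Q ∈ wker S w := Submodule.sub_mem _ hk1 hk2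
  have h : ∑ p ∈ S, ∑ q ∈ S, w p * w q * Bez P Q p q = 0 := hk
  have h2 : ∑ p ∈ S, ∑ q ∈ S, w p * w q * Bez P Q p q = ∑ p ∈ S, w p ^ 2 * jac P Q p := by
    apply Finset.sum_congr rfl
    intro p hp
    rw [Finset.sum_eq_single p]
    · rw [Bez_self]; ring
    · intro q hq hqp
      rw [Bez_off (Ne.symm hqp) (hS p hp).1 (hS q hq).1 (hS p hp).2.1 (hS q hq).2.1, mul_zero]
    · intro hnp; exact absurd hp hnp
  rw [h2] at h
  rw [Finset.sum_eq_zero_iff_of_nonneg
    (fun p hp => mul_nonneg (sq_nonneg _) (hS p hp).2.2.le)] at h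
  have hw0 : ∀ p ∈ S, w p = 0 := by
    intro p hp
    rcases mul_eq_zero.mp (h p hp) with h3 | h3
    · exact pow_eq_zero_iff (two_ne_zero) |>.mp h3
    · exact absurd h3 (hS p hp).2.2.ne'
  have h4 := hmom 0 (n - 1) (by omega)
  rw [if_pos ⟨rfl, rfl⟩, mom, Finset.sum_eq_zero (fun p hp => by rw [hw0 p hp, zero_mul])] at h4
  exact zero_ne_one h4

end Pool.Agent.PlanarCentres
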