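import Pool.Agent.PlanarCentres.LineArg
import Pool.Agent.PlanarCentres.Cofactor
import Pool.Agent.PlanarCentres.TopCoef
import Pool.Agent.PlanarCentres.ProjSwap

/-!
# Systems with an invariant line
-/

namespace Pool.Agent.PlanarCentres

open MvPolynomial Finset

/-- **Invariant line, algebraic form.** -/
theorem line_main {A Q : MvPolynomial (Fin 2) ℝ} {n : ℕ} (hn : 3 ≤ n)
    (hA : A.totalDegree ≤ n - 1) (hQ : Q.totalDegree ≤ n) (S : Finset (Fin 2 → ℝ))
    (hS0 : ∀ p ∈ S, eval p (X 0 * A) = 0 ∧ eval p Q = 0 ∧ 0 < jac (X 0 * A) Q p ∧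
      eval p (pderiv 0 (X 0 * A) + pderiv 1 Q) = 0) :
    S.card + 2 ≤ n * (n + 1) / 2 := by
  classical
  have hS : ∀ p ∈ S, p 0 ≠ 0 ∧ eval p A = 0 ∧ eval p Q = 0 ∧ 0 < jac (X 0 * A) Q p ∧
      eval p (pderiv 0 (X 0 * A) + pderiv 1 Q) = 0 := by
    intro p hp
    obtain ⟨h1, h2, h3, h4⟩ := hS0 p hp
    have hp0 : p 0 ≠ 0 := by
      intro h0
      rw [jac, Derivation.leibniz, Derivation.leibniz, pderiv_X_self,
        pderiv_X_of_ne (by decide), smul_eq_mul, smul_eq_mul, smul_eq_mul, smul_zero, add_zero,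
        mul_one, map_add, map_mul, eval_X, h0, zero_mul, zero_add, map_mul, eval_X, h0, zero_mul,
        zero_mul, sub_zero] at h3
      rw [map_add, Derivation.leibniz, pderiv_X_self, smul_eq_mul, smul_eq_mul, mul_one, map_add,
        map_mul, eval_X, h0, zero_mul, zero_add] at h4
      have h5 : eval p (pderiv 1 Q) = -eval p A := by linarith
      rw [h5] at h3
      nlinarith [sq_nonneg (eval p A)]
    refine ⟨hp0, ?_, h2, h3, h4⟩
    rw [map_mul, eval_X] at h1
    exact (mul_eq_zero.mp h1).resolve_left hp0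
  have hn1 : 1 ≤ n := by omega
  have hbig : 6 ≤ n * (n + 1) / 2 := by
    have : 3 * (3 + 1) ≤ n * (n + 1) := Nat.mul_le_mul hn (by omega)
    omega
  have hP : (X 0 * A : MvPolynomial (Fin 2) ℝ).totalDegree ≤ n := by
    refine (totalDegree_mul _ _).trans ?_
    rw [totalDegree_X]
    omega
  have hSP : ∀ p ∈ S, eval p (X 0 * A) = 0 ∧ eval p Q = 0 ∧ 0 < jac (X 0 * A) Q p := fun p hp =>
    ⟨by rw [map_mul, (hS p hp).2.1, mul_zero], (hS p hp).2.2.1, (hS p hp).2.2.2.1⟩
  by_cases hA0 : A = 0
  · have hempty : S = ∅ := by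
      apply Finset.eq_empty_of_forall_notMem
      intro p hp
      have h1 := (hS p hp).2.2.2.1
      rw [hA0, mul_zero, jac, map_zero, map_zero, map_zero] at h1
      simp at h1
    rw [hempty, card_empty]
    omega
  set D : MvPolynomial (Fin 2) ℝ := pderiv 0 (X 0 * A) + pderiv 1 Q with hD
  by_cases hli : LinearIndependent ℝ ![A, D]
  · refine card_add_le hn1 hP hQ S hSP ![A, D] hli ?_ ?_
    · intro i
      fin_cases i
      · exact hA
      · exact divergence_degree hP hQ
    · intro i p hp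
      fin_cases i
      · exact (hS p hp).2.1
      · exact (hS p hp).2.2.2.2
  · -- `D` is a multiple of `A`
    rw [LinearIndependent.pair_iff' hA0] at hli
    push Not at hli
    obtain ⟨c, hc⟩ := hli
    have hrel : pderiv 1 Q = -(C (1 - c) * A) - X 0 * pderiv 0 A := by
      have h1 : pderiv 0 (X 0 * A) = X 0 * pderiv 0 A + A := by
        rw [Derivation.leibniz, pderiv_X_self, smul_eq_mul, smul_eq_mul, mul_one]
      have h2 : c • A = X 0 * pderiv 0 A + A + pderiv 1 Q := by rw [hc, hD, h1]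
      rw [smul_eq_C_mul] at h2
      rw [map_sub, map_one]
      linear_combination -h2
    by_contra hcon
    have h1 : S.card + 1 ≤ n * (n + 1) / 2 := by
      refine card_add_le hn1 hP hQ S hSP ![A] ?_ ?_ ?_
      · rw [linearIndependent_unique_iff]
        simpa using hA0
      · intro i
        fin_cases i
        exact hA
      · intro i p hp
        fin_cases i
        exact (hS p hp).2.1
    have hcard : S.card + 1 = n * (n + 1) / 2 := by omega
    by_cases hcoef : coeff (Finsupp.single 1 (n - 1)) A = 0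
    · obtain ⟨w, hw⟩ := exists_weight hn1 hP hQ S hSP hA0 hA (fun p hp => (hS p hp).2.1) hcard
        (lcoeff ℝ (Finsupp.single 1 (n - 1))) (by simpa using hcoef)
      exact top_coef (by omega) rfl hP hQ hcoef S hSP w (fun f hf => by
        rw [hw f hf]; rfl)
    · by_cases hlam : 1 - c < 0
      · exact line_neg hn (1 - c) hlam hA hQ hrel hcoef S (fun p hp =>
          ⟨(hS p hp).1, (hS p hp).2.1, (hS p hp).2.2.1, (hS p hp).2.2.2.1⟩) hcard
      · obtain ⟨A', Q', S', hA', hQ', hrel', hcoef', hcard', hS'⟩ :=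
          proj_swap (by omega) (1 - c) hA hQ hrel S (fun p hp =>
            ⟨(hS p hp).1, (hS p hp).2.1, (hS p hp).2.2.1, (hS p hp).2.2.2.1⟩)
        refine line_neg hn (-(1 - c + n)) ?_ hA' hQ' hrel' ?_ S' hS' (by rw [hcard']; exact hcard)
        · have : (0 : ℝ) < n := by exact_mod_cast (show 0 < n by omega)
          linarith [not_lt.mp hlam]
        · rw [hcoef']; exact neg_ne_zero.mpr hcoef

end Pool.Agent.PlanarCentres
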