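import Mathlib

/-!
# The Bezout kernel of a planar polynomial vector field

For real polynomials `P, Q` of degree at most `n` in two variables we write
`P(x) - P(u) = (x₀ - u₀) A(x,u) + (x₁ - u₁) B(x,u)` with kernels of joint degree at most `n - 1`.
The determinant of the two pairs of kernels vanishes on pairs of distinct common zeros, and is the
Jacobian determinant on the diagonal.  Consequence: common zeros with positive Jacobian impose
independent conditions on polynomials of degree at most `n - 1`.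
-/

namespace Pool.Agent.PlanarCentres

open MvPolynomial Finset

/-- kernels which are sums of products `a(x) b(u)` with `deg a + deg b ≤ d` -/
def Sp (d : ℕ) : Submodule ℝ ((Fin 2 → ℝ) → (Fin 2 → ℝ) → ℝ) :=
  Submodule.span ℝ {f | ∃ a b : MvPolynomial (Fin 2) ℝ, a.totalDegree + b.totalDegree ≤ d ∧
    f = fun x u => eval x a * eval u b}

theorem Sp_gen {d : ℕ} (a b : MvPolynomial (Fin 2) ℝ) (h : a.totalDegree + b.totalDegree ≤ d) :
    (fun x u => eval x a * eval u b) ∈ Sp d :=
  Submodule.subset_span ⟨a, b, h, rfl⟩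

theorem Sp_mul {d e : ℕ} {f g : (Fin 2 → ℝ) → (Fin 2 → ℝ) → ℝ} (hf : f ∈ Sp d) (hg : g ∈ Sp e) :
    (fun x u => f x u * g x u) ∈ Sp (d + e) := by
  have key : ∀ a b : MvPolynomial (Fin 2) ℝ, a.totalDegree + b.totalDegree ≤ d →
      (fun x u => (eval x a * eval u b) * g x u) ∈ Sp (d + e) := by
    intro a b hab
    refine Submodule.span_induction (p := fun g _ =>
      (fun x u => (eval x a * eval u b) * g x u) ∈ Sp (d + e)) ?_ ?_ ?_ ?_ hg
    · rintro g ⟨a', b', h', rfl⟩
      have : (fun (x u : Fin 2 → ℝ) => (eval x a * eval u b) * (eval x a' * eval u b')) =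
          fun x u => eval x (a * a') * eval u (b * b') := by
        funext x u; simp only [map_mul]; ring
      rw [this]
      apply Sp_gen
      have h1 := totalDegree_mul a a'
      have h2 := totalDegree_mul b b'
      omega
    · have : (fun (x u : Fin 2 → ℝ) => (eval x a * eval u b) *
          (0 : (Fin 2 → ℝ) → (Fin 2 → ℝ) → ℝ) x u) = 0 := by
        funext x u; simp
      rw [this]; exact Submodule.zero_mem _
    · intro g1 g2 _ _ h1 h2
      have : (fun (x u : Fin 2 → ℝ) => (eval x a * eval u b) * (g1 + g2) x u) =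
          (fun x u => (eval x a * eval u b) * g1 x u) +
          (fun x u => (eval x a * eval u b) * g2 x u) := by
        funext x u; simp [mul_add]
      rw [this]; exact Submodule.add_mem _ h1 h2
    · intro c g1 _ h1
      have : (fun (x u : Fin 2 → ℝ) => (eval x a * eval u b) * (c • g1) x u) =
          c • (fun x u => (eval x a * eval u b) * g1 x u) := by
        funext x u; simp only [Pi.smul_apply, smul_eq_mul]; ring
      rw [this]; exact Submodule.smul_mem _ _ h1
  refine Submodule.span_induction (p := fun f _ =>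
      (fun x u => f x u * g x u) ∈ Sp (d + e)) ?_ ?_ ?_ ?_ hf
  · rintro f ⟨a, b, h, rfl⟩
    exact key a b h
  · have : (fun (x u : Fin 2 → ℝ) => (0 : (Fin 2 → ℝ) → (Fin 2 → ℝ) → ℝ) x u * g x u) = 0 := by
      funext x u; simp
    rw [this]; exact Submodule.zero_mem _
  · intro g1 g2 _ _ h1 h2
    have : (fun (x u : Fin 2 → ℝ) => (g1 + g2) x u * g x u) =
        (fun x u => g1 x u * g x u) + (fun x u => g2 x u * g x u) := by
      funext x u; simp [add_mul]
    rw [this]; exact Submodule.add_mem _ h1 h2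
  · intro c g1 _ h1
    have : (fun (x u : Fin 2 → ℝ) => (c • g1) x u * g x u) =
        c • (fun x u => g1 x u * g x u) := by
      funext x u; simp only [Pi.smul_apply, smul_eq_mul]; ring
    rw [this]; exact Submodule.smul_mem _ _ h1

/-- divided difference of a monomial in the first variable -/
def mA (s : Fin 2 →₀ ℕ) (x u : Fin 2 → ℝ) : ℝ :=
  (∑ k ∈ range (s 0), x 0 ^ k * u 0 ^ (s 0 - 1 - k)) * x 1 ^ s 1

/-- divided difference of a monomial in the second variable -/
def mB (s : Fin 2 →₀ ℕ) (x u : Fin 2 → ℝ) : ℝ :=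
  u 0 ^ s 0 * ∑ k ∈ range (s 1), x 1 ^ k * u 1 ^ (s 1 - 1 - k)

theorem mAB (s : Fin 2 →₀ ℕ) (x u : Fin 2 → ℝ) :
    x 0 ^ s 0 * x 1 ^ s 1 - u 0 ^ s 0 * u 1 ^ s 1 =
      (x 0 - u 0) * mA s x u + (x 1 - u 1) * mB s x u := by
  have h0 := (Commute.all (x 0) (u 0)).geom_sum₂_mul (s 0)
  have h1 := (Commute.all (x 1) (u 1)).geom_sum₂_mul (s 1)
  unfold mA mB
  linear_combination (-(x 1 ^ s 1)) * h0 - (u 0 ^ s 0) * h1

theorem mA_self (s : Fin 2 →₀ ℕ) (x : Fin 2 → ℝ) :
    mA s x x = s 0 * x 0 ^ (s 0 - 1) * x 1 ^ s 1 := by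
  unfold mA
  rw [geom_sum₂_self]

theorem mB_self (s : Fin 2 →₀ ℕ) (x : Fin 2 → ℝ) :
    mB s x x = x 0 ^ s 0 * (s 1 * x 1 ^ (s 1 - 1)) := by
  unfold mB
  rw [geom_sum₂_self]

theorem totalDegree_X_pow_le (i : Fin 2) (k : ℕ) :
    (X i ^ k : MvPolynomial (Fin 2) ℝ).totalDegree ≤ k := by
  rw [totalDegree_X_pow]

theorem mA_mem {s : Fin 2 →₀ ℕ} {n : ℕ} (h : s 0 + s 1 ≤ n) : mA s ∈ Sp (n - 1) := by
  have : mA s = ∑ k ∈ range (s 0), (fun (x u : Fin 2 → ℝ) =>
      eval x (X 0 ^ k * X 1 ^ s 1 : MvPolynomial (Fin 2) ℝ) *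
      eval u (X 0 ^ (s 0 - 1 - k) : MvPolynomial (Fin 2) ℝ)) := by
    funext x u
    simp only [mA, Finset.sum_apply, map_mul, map_pow, eval_X, Finset.sum_mul]
    apply Finset.sum_congr rfl
    intro k _
    ring
  rw [this]
  apply Submodule.sum_mem
  intro k hk
  rw [mem_range] at hk
  apply Sp_gen
  have h1 := totalDegree_mul (X 0 ^ k : MvPolynomial (Fin 2) ℝ) (X 1 ^ s 1)
  have h2 := totalDegree_X_pow_le 0 k
  have h3 := totalDegree_X_pow_le 1 (s 1)
  have h4 := totalDegree_X_pow_le 0 (s 0 - 1 - k)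
  omega

theorem mB_mem {s : Fin 2 →₀ ℕ} {n : ℕ} (h : s 0 + s 1 ≤ n) : mB s ∈ Sp (n - 1) := by
  have : mB s = ∑ k ∈ range (s 1), (fun (x u : Fin 2 → ℝ) =>
      eval x (X 1 ^ k : MvPolynomial (Fin 2) ℝ) *
      eval u (X 0 ^ s 0 * X 1 ^ (s 1 - 1 - k) : MvPolynomial (Fin 2) ℝ)) := by
    funext x u
    simp only [mB, Finset.sum_apply, map_mul, map_pow, eval_X, Finset.mul_sum]
    apply Finset.sum_congr rfl
    intro k _
    ring
  rw [this]
  apply Submodule.sum_mem
  intro k hk
  rw [mem_range] at hk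
  apply Sp_gen
  have h1 := totalDegree_mul (X 0 ^ s 0 : MvPolynomial (Fin 2) ℝ) (X 1 ^ (s 1 - 1 - k))
  have h2 := totalDegree_X_pow_le 0 (s 0)
  have h3 := totalDegree_X_pow_le 1 (s 1 - 1 - k)
  have h4 := totalDegree_X_pow_le 1 k
  omega

/-- divided difference in the first variable -/
noncomputable def dA (p : MvPolynomial (Fin 2) ℝ) (x u : Fin 2 → ℝ) : ℝ :=
  ∑ s ∈ p.support, coeff s p * mA s x u

/-- divided difference in the second variable -/
noncomputable def dB (p : MvPolynomial (Fin 2) ℝ) (x u : Fin 2 → ℝ) : ℝ :=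
  ∑ s ∈ p.support, coeff s p * mB s x u

theorem eval_two (p : MvPolynomial (Fin 2) ℝ) (x : Fin 2 → ℝ) :
    eval x p = ∑ s ∈ p.support, coeff s p * (x 0 ^ s 0 * x 1 ^ s 1) := by
  rw [eval_eq']
  simp only [Fin.prod_univ_two]

theorem dAB (p : MvPolynomial (Fin 2) ℝ) (x u : Fin 2 → ℝ) :
    eval x p - eval u p = (x 0 - u 0) * dA p x u + (x 1 - u 1) * dB p x u := by
  rw [eval_two, eval_two, dA, dB, ← Finset.sum_sub_distrib, Finset.mul_sum, Finset.mul_sum,
    ← Finset.sum_add_distrib]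
  apply Finset.sum_congr rfl
  intro s _
  linear_combination (coeff s p) * mAB s x u

theorem eval_pderiv_monomial (s : Fin 2 →₀ ℕ) (c : ℝ) (i : Fin 2) (x : Fin 2 → ℝ) :
    eval x (pderiv i (monomial s c)) =
      c * (if i = 0 then mA s x x else mB s x x) := by
  rw [pderiv_monomial, eval_monomial, Finsupp.prod_fintype _ _ (fun i => by simp),
    Fin.prod_univ_two, mA_self, mB_self]
  fin_cases i
  · simp only [Fin.zero_eta, Fin.isValue, Finsupp.coe_tsub, Pi.sub_apply, Finsupp.single_eq_same,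
      ne_eq, one_ne_zero, not_false_eq_true, Finsupp.single_eq_of_ne, tsub_zero, if_true]
    ring
  · simp
    ring

theorem dA_self (p : MvPolynomial (Fin 2) ℝ) (x : Fin 2 → ℝ) :
    dA p x x = eval x (pderiv 0 p) := by
  conv_rhs => rw [← support_sum_monomial_coeff p]
  rw [map_sum, map_sum, dA]
  apply Finset.sum_congr rfl
  intro s _
  rw [eval_pderiv_monomial, if_pos rfl]

theorem dB_self (p : MvPolynomial (Fin 2) ℝ) (x : Fin 2 → ℝ) :
    dB p x x = eval x (pderiv 1 p) := by
  conv_rhs => rw [← support_sum_monomial_coeff p]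
  rw [map_sum, map_sum, dB]
  apply Finset.sum_congr rfl
  intro s _
  rw [eval_pderiv_monomial, if_neg (by decide)]

theorem deg_two {p : MvPolynomial (Fin 2) ℝ} {n : ℕ} (hp : p.totalDegree ≤ n)
    {s : Fin 2 →₀ ℕ} (hs : s ∈ p.support) : s 0 + s 1 ≤ n := by
  have h := le_totalDegree hs
  rw [Finsupp.sum_fintype _ _ (fun _ => rfl), Fin.sum_univ_two] at h
  omega

theorem dA_mem {p : MvPolynomial (Fin 2) ℝ} {n : ℕ} (hp : p.totalDegree ≤ n) :
    dA p ∈ Sp (n - 1) := by
  have : dA p = ∑ s ∈ p.support, coeff s p • mA s := by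
    funext x u
    simp [dA, Finset.sum_apply]
  rw [this]
  exact Submodule.sum_mem _ fun s hs => Submodule.smul_mem _ _ (mA_mem (deg_two hp hs))

theorem dB_mem {p : MvPolynomial (Fin 2) ℝ} {n : ℕ} (hp : p.totalDegree ≤ n) :
    dB p ∈ Sp (n - 1) := by
  have : dB p = ∑ s ∈ p.support, coeff s p • mB s := by
    funext x u
    simp [dB, Finset.sum_apply]
  rw [this]
  exact Submodule.sum_mem _ fun s hs => Submodule.smul_mem _ _ (mB_mem (deg_two hp hs))

/-- the Bezout kernel -/
noncomputable def Bez (P Q : MvPolynomial (Fin 2) ℝ) (x u : Fin 2 → ℝ) : ℝ :=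
  dA P x u * dB Q x u - dB P x u * dA Q x u

/-- the Jacobian determinant of the planar vector field `(P, Q)` at a point -/
noncomputable def jac (P Q : MvPolynomial (Fin 2) ℝ) (p : Fin 2 → ℝ) : ℝ :=
  eval p (pderiv 0 P) * eval p (pderiv 1 Q) - eval p (pderiv 1 P) * eval p (pderiv 0 Q)

theorem Bez_self (P Q : MvPolynomial (Fin 2) ℝ) (p : Fin 2 → ℝ) : Bez P Q p p = jac P Q p := by
  rw [Bez, jac, dA_self, dB_self, dA_self, dB_self]

theorem Bez_mem {P Q : MvPolynomial (Fin 2) ℝ} {n : ℕ} (hP : P.totalDegree ≤ n)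
    (hQ : Q.totalDegree ≤ n) : Bez P Q ∈ Sp ((n - 1) + (n - 1)) :=
  Submodule.sub_mem _ (Sp_mul (dA_mem hP) (dB_mem hQ)) (Sp_mul (dB_mem hP) (dA_mem hQ))

theorem Bez_off {P Q : MvPolynomial (Fin 2) ℝ} {p q : Fin 2 → ℝ} (hpq : p ≠ q)
    (h1 : eval p P = 0) (h2 : eval q P = 0) (h3 : eval p Q = 0) (h4 : eval q Q = 0) :
    Bez P Q p q = 0 := by
  have e1 := dAB P p q
  have e2 := dAB Q p q
  rw [h1, h2, sub_zero] at e1
  rw [h3, h4, sub_zero] at e2
  have hne : p 0 - q 0 ≠ 0 ∨ p 1 - q 1 ≠ 0 := by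
    by_contra hcon
    push Not at hcon
    apply hpq
    funext i
    fin_cases i
    · exact sub_eq_zero.mp hcon.1
    · exact sub_eq_zero.mp hcon.2
  rcases hne with h | h
  · have : (p 0 - q 0) * Bez P Q p q = 0 := by
      unfold Bez
      linear_combination (-(dB Q p q)) * e1 + (dB P p q) * e2
    exact (mul_eq_zero.mp this).resolve_left h
  · have : (p 1 - q 1) * Bez P Q p q = 0 := by
      unfold Bez
      linear_combination (dA Q p q) * e1 - (dA P p q) * e2
    exact (mul_eq_zero.mp this).resolve_left h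

/-- a functional supported on `S` that kills all polynomials of degree at most `m` makes every
kernel of joint degree `2 m` isotropic -/
theorem sum_Sp {m : ℕ} (S : Finset (Fin 2 → ℝ)) (w : (Fin 2 → ℝ) → ℝ)
    (hw : ∀ f : MvPolynomial (Fin 2) ℝ, f.totalDegree ≤ m → ∑ p ∈ S, w p * eval p f = 0)
    {F : (Fin 2 → ℝ) → (Fin 2 → ℝ) → ℝ} (hF : F ∈ Sp (m + m)) :
    ∑ p ∈ S, ∑ q ∈ S, w p * w q * F p q = 0 := by
  refine Submodule.span_induction (p := fun F _ =>
      ∑ p ∈ S, ∑ q ∈ S, w p * w q * F p q = 0) ?_ ?_ ?_ ?_ hF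
  · rintro F ⟨a, b, hab, rfl⟩
    have : ∑ p ∈ S, ∑ q ∈ S, w p * w q * (eval p a * eval q b) =
        (∑ p ∈ S, w p * eval p a) * (∑ q ∈ S, w q * eval q b) := by
      rw [Finset.sum_mul_sum]
      apply Finset.sum_congr rfl
      intro p _
      apply Finset.sum_congr rfl
      intro q _
      ring
    rw [this]
    by_cases h : a.totalDegree ≤ m
    · rw [hw a h, zero_mul]
    · rw [hw b (by omega), mul_zero]
  · simp
  · intro F G _ _ h1 h2
    simp only [Pi.add_apply, mul_add, Finset.sum_add_distrib, h1, h2, add_zero]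
  · intro c F _ h
    have : ∑ p ∈ S, ∑ q ∈ S, w p * w q * (c • F) p q =
        c * ∑ p ∈ S, ∑ q ∈ S, w p * w q * F p q := by
      rw [Finset.mul_sum]
      apply Finset.sum_congr rfl
      intro p _
      rw [Finset.mul_sum]
      apply Finset.sum_congr rfl
      intro q _
      simp only [Pi.smul_apply, smul_eq_mul]
      ring
    rw [this, h, mul_zero]

/-- **Independence of conditions.** Common zeros with positive Jacobian determinant of two
polynomials of degree at most `n` impose independent conditions on the polynomials of degree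
at most `n - 1`. -/
theorem independent {P Q : MvPolynomial (Fin 2) ℝ} {n : ℕ} (hP : P.totalDegree ≤ n)
    (hQ : Q.totalDegree ≤ n) (S : Finset (Fin 2 → ℝ))
    (hS : ∀ p ∈ S, eval p P = 0 ∧ eval p Q = 0 ∧ 0 < jac P Q p) (w : (Fin 2 → ℝ) → ℝ)
    (hw : ∀ f : MvPolynomial (Fin 2) ℝ, f.totalDegree ≤ n - 1 → ∑ p ∈ S, w p * eval p f = 0) :
    ∀ p ∈ S, w p = 0 := by
  have h := sum_Sp S w hw (Bez_mem hP hQ)
  have h2 : ∑ p ∈ S, ∑ q ∈ S, w p * w q * Bez P Q p q = ∑ p ∈ S, w p ^ 2 * jac P Q p := by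
    apply Finset.sum_congr rfl
    intro p hp
    rw [Finset.sum_eq_single p]
    · rw [Bez_self]; ring
    · intro q hq hqp
      rw [Bez_off (Ne.symm hqp) (hS p hp).1 (hS q hq).1 (hS p hp).2.1 (hS q hq).2.1, mul_zero]
    · intro hnp; exact absurd hp hnp
  rw [h2] at h
  rw [Finset.sum_eq_zero_iff_of_nonneg
    (fun p hp => mul_nonneg (sq_nonneg _) (hS p hp).2.2.le)] at h
  intro p hp
  have := h p hp
  rcases mul_eq_zero.mp this with h3 | h3
  · exact pow_eq_zero_iff (two_ne_zero) |>.mp h3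
  · exact absurd h3 (hS p hp).2.2.ne'

/-- kernels are continuous in the first argument -/
theorem dA_cont (p : MvPolynomial (Fin 2) ℝ) (u : Fin 2 → ℝ) :
    Continuous fun x => dA p x u := by
  unfold dA mA
  fun_prop

theorem dB_cont (p : MvPolynomial (Fin 2) ℝ) (u : Fin 2 → ℝ) :
    Continuous fun x => dB p x u := by
  unfold dB mB
  fun_prop

end Pool.Agent.PlanarCentres
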