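import Pool.Agent.PlanarCentres.Bez

/-!
# The Bezout kernel at complex points

If a complex combination of evaluations at finitely many complex common zeros of `P, Q` (real
polynomials of degree at most `n`) kills all real polynomials of degree at most `n - 1`, then the
sum of `c(z)² J(z)` vanishes.
-/

namespace Pool.Agent.PlanarCentres

open MvPolynomial Finset

/-- complex kernels which are sums of products `a(x) b(u)` with `deg a + deg b ≤ d` -/
def SpC (d : ℕ) : Submodule ℂ ((Fin 2 → ℂ) → (Fin 2 → ℂ) → ℂ) :=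
  Submodule.span ℂ {f | ∃ a b : MvPolynomial (Fin 2) ℝ, a.totalDegree + b.totalDegree ≤ d ∧
    f = fun x u => aeval x a * aeval u b}

theorem SpC_gen {d : ℕ} (a b : MvPolynomial (Fin 2) ℝ) (h : a.totalDegree + b.totalDegree ≤ d) :
    (fun (x u : Fin 2 → ℂ) => aeval x a * aeval u b) ∈ SpC d :=
  Submodule.subset_span ⟨a, b, h, rfl⟩

theorem SpC_mul {d e : ℕ} {f g : (Fin 2 → ℂ) → (Fin 2 → ℂ) → ℂ} (hf : f ∈ SpC d)
    (hg : g ∈ SpC e) : (fun x u => f x u * g x u) ∈ SpC (d + e) := by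
  have key : ∀ a b : MvPolynomial (Fin 2) ℝ, a.totalDegree + b.totalDegree ≤ d →
      (fun (x u : Fin 2 → ℂ) => (aeval x a * aeval u b) * g x u) ∈ SpC (d + e) := by
    intro a b hab
    refine Submodule.span_induction (p := fun g _ =>
      (fun (x u : Fin 2 → ℂ) => (aeval x a * aeval u b) * g x u) ∈ SpC (d + e)) ?_ ?_ ?_ ?_ hg
    · rintro g ⟨a', b', h', rfl⟩
      have : (fun (x u : Fin 2 → ℂ) => (aeval x a * aeval u b) * (aeval x a' * aeval u b')) =
          fun x u => aeval x (a * a') * aeval u (b * b') := by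
        funext x u; simp only [map_mul]; ring
      rw [this]
      apply SpC_gen
      have h1 := totalDegree_mul a a'
      have h2 := totalDegree_mul b b'
      omega
    · have : (fun (x u : Fin 2 → ℂ) => (aeval x a * aeval u b) *
          (0 : (Fin 2 → ℂ) → (Fin 2 → ℂ) → ℂ) x u) = 0 := by
        funext x u; simp
      rw [this]; exact Submodule.zero_mem _
    · intro g1 g2 _ _ h1 h2
      have : (fun (x u : Fin 2 → ℂ) => (aeval x a * aeval u b) * (g1 + g2) x u) =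
          (fun x u => (aeval x a * aeval u b) * g1 x u) +
          (fun x u => (aeval x a * aeval u b) * g2 x u) := by
        funext x u; simp [mul_add]
      rw [this]; exact Submodule.add_mem _ h1 h2
    · intro c g1 _ h1
      have : (fun (x u : Fin 2 → ℂ) => (aeval x a * aeval u b) * (c • g1) x u) =
          c • (fun x u => (aeval x a * aeval u b) * g1 x u) := by
        funext x u; simp only [Pi.smul_apply, smul_eq_mul]; ring
      rw [this]; exact Submodule.smul_mem _ _ h1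
  refine Submodule.span_induction (p := fun f _ =>
      (fun x u => f x u * g x u) ∈ SpC (d + e)) ?_ ?_ ?_ ?_ hf
  · rintro f ⟨a, b, h, rfl⟩
    exact key a b h
  · have : (fun (x u : Fin 2 → ℂ) => (0 : (Fin 2 → ℂ) → (Fin 2 → ℂ) → ℂ) x u * g x u) = 0 := by
      funext x u; simp
    rw [this]; exact Submodule.zero_mem _
  · intro g1 g2 _ _ h1 h2
    have : (fun (x u : Fin 2 → ℂ) => (g1 + g2) x u * g x u) =
        (fun x u => g1 x u * g x u) + (fun x u => g2 x u * g x u) := by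
      funext x u; simp [add_mul]
    rw [this]; exact Submodule.add_mem _ h1 h2
  · intro c g1 _ h1
    have : (fun (x u : Fin 2 → ℂ) => (c • g1) x u * g x u) =
        c • (fun x u => g1 x u * g x u) := by
      funext x u; simp only [Pi.smul_apply, smul_eq_mul]; ring
    rw [this]; exact Submodule.smul_mem _ _ h1

/-- divided difference of a monomial in the first variable -/
def mAC (s : Fin 2 →₀ ℕ) (x u : Fin 2 → ℂ) : ℂ :=
  (∑ k ∈ range (s 0), x 0 ^ k * u 0 ^ (s 0 - 1 - k)) * x 1 ^ s 1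

/-- divided difference of a monomial in the second variable -/
def mBC (s : Fin 2 →₀ ℕ) (x u : Fin 2 → ℂ) : ℂ :=
  u 0 ^ s 0 * ∑ k ∈ range (s 1), x 1 ^ k * u 1 ^ (s 1 - 1 - k)

theorem mABC (s : Fin 2 →₀ ℕ) (x u : Fin 2 → ℂ) :
    x 0 ^ s 0 * x 1 ^ s 1 - u 0 ^ s 0 * u 1 ^ s 1 =
      (x 0 - u 0) * mAC s x u + (x 1 - u 1) * mBC s x u := by
  have h0 := (Commute.all (x 0) (u 0)).geom_sum₂_mul (s 0)
  have h1 := (Commute.all (x 1) (u 1)).geom_sum₂_mul (s 1)
  unfold mAC mBC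
  linear_combination (-(x 1 ^ s 1)) * h0 - (u 0 ^ s 0) * h1

theorem mAC_self (s : Fin 2 →₀ ℕ) (x : Fin 2 → ℂ) :
    mAC s x x = s 0 * x 0 ^ (s 0 - 1) * x 1 ^ s 1 := by
  unfold mAC
  rw [geom_sum₂_self]

theorem mBC_self (s : Fin 2 →₀ ℕ) (x : Fin 2 → ℂ) :
    mBC s x x = x 0 ^ s 0 * (s 1 * x 1 ^ (s 1 - 1)) := by
  unfold mBC
  rw [geom_sum₂_self]

theorem mAC_mem {s : Fin 2 →₀ ℕ} {n : ℕ} (h : s 0 + s 1 ≤ n) : mAC s ∈ SpC (n - 1) := by
  have : mAC s = ∑ k ∈ range (s 0), (fun (x u : Fin 2 → ℂ) =>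
      aeval x (X 0 ^ k * X 1 ^ s 1 : MvPolynomial (Fin 2) ℝ) *
      aeval u (X 0 ^ (s 0 - 1 - k) : MvPolynomial (Fin 2) ℝ)) := by
    funext x u
    simp only [mAC, Finset.sum_apply, map_mul, map_pow, aeval_X, Finset.sum_mul]
    apply Finset.sum_congr rfl
    intro k _
    ring
  rw [this]
  apply Submodule.sum_mem
  intro k hk
  rw [mem_range] at hk
  apply SpC_gen
  have h1 := totalDegree_mul (X 0 ^ k : MvPolynomial (Fin 2) ℝ) (X 1 ^ s 1)
  have h2 := totalDegree_X_pow_le 0 k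
  have h3 := totalDegree_X_pow_le 1 (s 1)
  have h4 := totalDegree_X_pow_le 0 (s 0 - 1 - k)
  omega

theorem mBC_mem {s : Fin 2 →₀ ℕ} {n : ℕ} (h : s 0 + s 1 ≤ n) : mBC s ∈ SpC (n - 1) := by
  have : mBC s = ∑ k ∈ range (s 1), (fun (x u : Fin 2 → ℂ) =>
      aeval x (X 1 ^ k : MvPolynomial (Fin 2) ℝ) *
      aeval u (X 0 ^ s 0 * X 1 ^ (s 1 - 1 - k) : MvPolynomial (Fin 2) ℝ)) := by
    funext x u
    simp only [mBC, Finset.sum_apply, map_mul, map_pow, aeval_X, Finset.mul_sum]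
    apply Finset.sum_congr rfl
    intro k _
    ring
  rw [this]
  apply Submodule.sum_mem
  intro k hk
  rw [mem_range] at hk
  apply SpC_gen
  have h1 := totalDegree_mul (X 0 ^ s 0 : MvPolynomial (Fin 2) ℝ) (X 1 ^ (s 1 - 1 - k))
  have h2 := totalDegree_X_pow_le 0 (s 0)
  have h3 := totalDegree_X_pow_le 1 (s 1 - 1 - k)
  have h4 := totalDegree_X_pow_le 1 k
  omega

/-- divided difference in the first variable -/
noncomputable def dAC (p : MvPolynomial (Fin 2) ℝ) (x u : Fin 2 → ℂ) : ℂ :=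
  ∑ s ∈ p.support, ((coeff s p : ℝ) : ℂ) * mAC s x u

/-- divided difference in the second variable -/
noncomputable def dBC (p : MvPolynomial (Fin 2) ℝ) (x u : Fin 2 → ℂ) : ℂ :=
  ∑ s ∈ p.support, ((coeff s p : ℝ) : ℂ) * mBC s x u

theorem aeval_mono (s : Fin 2 →₀ ℕ) (c : ℝ) (x : Fin 2 → ℂ) :
    aeval x (monomial s c) = (c : ℂ) * (x 0 ^ s 0 * x 1 ^ s 1) := by
  rw [aeval_monomial, Finsupp.prod_fintype _ _ (fun i => by simp), Fin.prod_univ_two]
  rfl

theorem aeval_two (p : MvPolynomial (Fin 2) ℝ) (x : Fin 2 → ℂ) :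
    aeval x p = ∑ s ∈ p.support, ((coeff s p : ℝ) : ℂ) * (x 0 ^ s 0 * x 1 ^ s 1) := by
  conv_lhs => rw [← support_sum_monomial_coeff p]
  rw [map_sum]
  apply Finset.sum_congr rfl
  intro s _
  rw [aeval_mono]

theorem dABC (p : MvPolynomial (Fin 2) ℝ) (x u : Fin 2 → ℂ) :
    aeval x p - aeval u p = (x 0 - u 0) * dAC p x u + (x 1 - u 1) * dBC p x u := by
  rw [aeval_two, aeval_two, dAC, dBC, ← Finset.sum_sub_distrib, Finset.mul_sum, Finset.mul_sum,
    ← Finset.sum_add_distrib]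
  apply Finset.sum_congr rfl
  intro s _
  linear_combination ((coeff s p : ℝ) : ℂ) * mABC s x u

theorem aeval_pderiv_monomial (s : Fin 2 →₀ ℕ) (c : ℝ) (i : Fin 2) (x : Fin 2 → ℂ) :
    aeval x (pderiv i (monomial s c)) =
      (c : ℂ) * (if i = 0 then mAC s x x else mBC s x x) := by
  rw [pderiv_monomial, aeval_mono, mAC_self, mBC_self]
  fin_cases i
  · simp only [Fin.zero_eta, Fin.isValue, Finsupp.coe_tsub, Pi.sub_apply, Finsupp.single_eq_same,
      ne_eq, one_ne_zero, not_false_eq_true, Finsupp.single_eq_of_ne, tsub_zero, if_true]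
    push_cast
    ring
  · simp
    ring

theorem dAC_self (p : MvPolynomial (Fin 2) ℝ) (x : Fin 2 → ℂ) :
    dAC p x x = aeval x (pderiv 0 p) := by
  conv_rhs => rw [← support_sum_monomial_coeff p]
  rw [map_sum, map_sum, dAC]
  apply Finset.sum_congr rfl
  intro s _
  rw [aeval_pderiv_monomial, if_pos rfl]

theorem dBC_self (p : MvPolynomial (Fin 2) ℝ) (x : Fin 2 → ℂ) :
    dBC p x x = aeval x (pderiv 1 p) := by
  conv_rhs => rw [← support_sum_monomial_coeff p]
  rw [map_sum, map_sum, dBC]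
  apply Finset.sum_congr rfl
  intro s _
  rw [aeval_pderiv_monomial, if_neg (by decide)]

theorem dAC_mem {p : MvPolynomial (Fin 2) ℝ} {n : ℕ} (hp : p.totalDegree ≤ n) :
    dAC p ∈ SpC (n - 1) := by
  have : dAC p = ∑ s ∈ p.support, ((coeff s p : ℝ) : ℂ) • mAC s := by
    funext x u
    simp [dAC, Finset.sum_apply]
  rw [this]
  exact Submodule.sum_mem _ fun s hs => Submodule.smul_mem _ _ (mAC_mem (deg_two hp hs))

theorem dBC_mem {p : MvPolynomial (Fin 2) ℝ} {n : ℕ} (hp : p.totalDegree ≤ n) :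
    dBC p ∈ SpC (n - 1) := by
  have : dBC p = ∑ s ∈ p.support, ((coeff s p : ℝ) : ℂ) • mBC s := by
    funext x u
    simp [dBC, Finset.sum_apply]
  rw [this]
  exact Submodule.sum_mem _ fun s hs => Submodule.smul_mem _ _ (mBC_mem (deg_two hp hs))

/-- the complex Bezout kernel -/
noncomputable def BezC (P Q : MvPolynomial (Fin 2) ℝ) (x u : Fin 2 → ℂ) : ℂ :=
  dAC P x u * dBC Q x u - dBC P x u * dAC Q x u

/-- the Jacobian determinant at a complex point -/
noncomputable def jacC (P Q : MvPolynomial (Fin 2) ℝ) (p : Fin 2 → ℂ) : ℂ :=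
  aeval p (pderiv 0 P) * aeval p (pderiv 1 Q) - aeval p (pderiv 1 P) * aeval p (pderiv 0 Q)

theorem BezC_self (P Q : MvPolynomial (Fin 2) ℝ) (p : Fin 2 → ℂ) :
    BezC P Q p p = jacC P Q p := by
  rw [BezC, jacC, dAC_self, dBC_self, dAC_self, dBC_self]

theorem BezC_mem {P Q : MvPolynomial (Fin 2) ℝ} {n : ℕ} (hP : P.totalDegree ≤ n)
    (hQ : Q.totalDegree ≤ n) : BezC P Q ∈ SpC ((n - 1) + (n - 1)) :=
  Submodule.sub_mem _ (SpC_mul (dAC_mem hP) (dBC_mem hQ)) (SpC_mul (dBC_mem hP) (dAC_mem hQ))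

theorem BezC_off {P Q : MvPolynomial (Fin 2) ℝ} {p q : Fin 2 → ℂ} (hpq : p ≠ q)
    (h1 : aeval p P = 0) (h2 : aeval q P = 0) (h3 : aeval p Q = 0) (h4 : aeval q Q = 0) :
    BezC P Q p q = 0 := by
  have e1 := dABC P p q
  have e2 := dABC Q p q
  rw [h1, h2, sub_zero] at e1
  rw [h3, h4, sub_zero] at e2
  have hne : p 0 - q 0 ≠ 0 ∨ p 1 - q 1 ≠ 0 := by
    by_contra hcon
    push Not at hcon
    apply hpq
    funext i
    fin_cases i
    · exact sub_eq_zero.mp hcon.1
    · exact sub_eq_zero.mp hcon.2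
  rcases hne with h | h
  · have : (p 0 - q 0) * BezC P Q p q = 0 := by
      unfold BezC
      linear_combination (-(dBC Q p q)) * e1 + (dBC P p q) * e2
    exact (mul_eq_zero.mp this).resolve_left h
  · have : (p 1 - q 1) * BezC P Q p q = 0 := by
      unfold BezC
      linear_combination (dAC Q p q) * e1 - (dAC P p q) * e2
    exact (mul_eq_zero.mp this).resolve_left h

theorem sum_SpC {m : ℕ} (Z : Finset (Fin 2 → ℂ)) (c : (Fin 2 → ℂ) → ℂ)
    (hc : ∀ f : MvPolynomial (Fin 2) ℝ, f.totalDegree ≤ m → ∑ p ∈ Z, c p * aeval p f = 0)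
    {F : (Fin 2 → ℂ) → (Fin 2 → ℂ) → ℂ} (hF : F ∈ SpC (m + m)) :
    ∑ p ∈ Z, ∑ q ∈ Z, c p * c q * F p q = 0 := by
  refine Submodule.span_induction (p := fun F _ =>
      ∑ p ∈ Z, ∑ q ∈ Z, c p * c q * F p q = 0) ?_ ?_ ?_ ?_ hF
  · rintro F ⟨a, b, hab, rfl⟩
    have : ∑ p ∈ Z, ∑ q ∈ Z, c p * c q * (aeval p a * aeval q b) =
        (∑ p ∈ Z, c p * aeval p a) * (∑ q ∈ Z, c q * aeval q b) := by
      rw [Finset.sum_mul_sum]
      apply Finset.sum_congr rfl
      intro p _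
      apply Finset.sum_congr rfl
      intro q _
      ring
    rw [this]
    by_cases h : a.totalDegree ≤ m
    · rw [hc a h, zero_mul]
    · rw [hc b (by omega), mul_zero]
  · simp
  · intro F G _ _ h1 h2
    simp only [Pi.add_apply, mul_add, Finset.sum_add_distrib, h1, h2, add_zero]
  · intro d F _ h
    have : ∑ p ∈ Z, ∑ q ∈ Z, c p * c q * (d • F) p q =
        d * ∑ p ∈ Z, ∑ q ∈ Z, c p * c q * F p q := by
      rw [Finset.mul_sum]
      apply Finset.sum_congr rfl
      intro p _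
      rw [Finset.mul_sum]
      apply Finset.sum_congr rfl
      intro q _
      simp only [Pi.smul_apply, smul_eq_mul]
      ring
    rw [this, h, mul_zero]

/-- **The quadratic relation.** If `∑ c(z) f(z) = 0` for all real `f` of degree at most `n - 1`,
the sum being over finitely many complex common zeros, then `∑ c(z)² J(z) = 0`. -/
theorem quad_relation {P Q : MvPolynomial (Fin 2) ℝ} {n : ℕ} (hP : P.totalDegree ≤ n)
    (hQ : Q.totalDegree ≤ n) (Z : Finset (Fin 2 → ℂ))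
    (hZ : ∀ p ∈ Z, aeval p P = 0 ∧ aeval p Q = 0) (c : (Fin 2 → ℂ) → ℂ)
    (hc : ∀ f : MvPolynomial (Fin 2) ℝ, f.totalDegree ≤ n - 1 → ∑ p ∈ Z, c p * aeval p f = 0) :
    ∑ p ∈ Z, c p ^ 2 * jacC P Q p = 0 := by
  have h := sum_SpC Z c hc (BezC_mem hP hQ)
  rw [← h]
  apply Finset.sum_congr rfl
  intro p hp
  rw [Finset.sum_eq_single p]
  · rw [BezC_self]; ring
  · intro q hq hqp
    rw [BezC_off (Ne.symm hqp) (hZ p hp).1 (hZ q hq).1 (hZ p hp).2 (hZ q hq).2, mul_zero]
  · intro hnp; exact absurd hp hnp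

end Pool.Agent.PlanarCentres
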